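import Pool.Agent.Work.MP_db9399_da.Local

/-!
# MP_db9399, DENSE-ALL, phase 2: the three local theorems with prescribed own colours

Phase 2 (precoloured matching), see note 1443. `o` are members of the piece with prescribed own
colours `c0` (ends of the matching). `F v` never contains own colours (type N: it does).
-/

set_option autoImplicit false

namespace Pool.Agent.Work.MP_db9399_da

open Finset Classical
open Pool.Agent.Work.MP_db9399_all (nb)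
open Pool.Agent.Work.MP_db9399_nc (nn)
open Pool.Agent.Work.MP_db9399_lt (us)

universe u

section defs
variable {V : Type u} [Fintype V]

/-- `LI` with a number `K` instead of `8` -/
structure LI2 (G : SimpleGraph V) (d K : ℕ) (C ρ π κ θ : ℝ) (sd pt : V → Bool)
    (Q : Bool → Finset ℕ) (P2 : Finset ℕ) (F : V → Finset ℕ) : Prop where
  VC : (Fintype.card V : ℝ) ≤ C * d
  Flt : ∀ v, ∀ b ∈ F v, b < d + 2
  Fx : ∀ v, ((F v).card : ℝ) ≤ θ * d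
  load : ∀ b, ((us F b).card : ℝ) ≤ θ * d
  Qlt : ∀ i, Q i ⊆ range (d + 2)
  Plt : P2 ⊆ range (d + 2)
  QQ : Disjoint (Q false) (Q true)
  QP : ∀ i, Disjoint (Q i) P2
  Qc : ∀ i, κ * d ≤ ((Q i).card : ℝ) ∧ ((Q i).card : ℝ) ≤ 2 * κ * d
  Pc : π * d ≤ (P2.card : ℝ) ∧ (P2.card : ℝ) ≤ 2 * π * d
  FQ : ∀ v, Disjoint (F v) (Q (pt v))
  sgQ : ∀ i, ∀ b ∈ Q (!i) ∪ P2, |sgp F sd pt i b| ≤ K
  sm2 : ∀ i, |((∑ b ∈ P2, sgp F sd pt i b : ℤ) : ℝ)| ≤ θ * d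
  smQ : ∀ i, |((∑ b ∈ Q (!i), sgp F sd pt i b : ℤ) : ℝ)| ≤ θ * d
  cutG : ∀ S : Finset V, ρ * S.card * (univ \ S).card ≤ ∑ v ∈ S, ((nb G v \ S).card : ℝ)
  cutP : ∀ i, ∀ S ⊆ prt pt i, ρ * S.card * (prt pt i \ S).card ≤
    ∑ v ∈ S, (((nb G v \ S) ∩ qtr sd pt (!(sd v)) i).card : ℝ)

/-- the prescribed colours together with the prescribed own colours -/
noncomputable def Fo (o : Finset V) (c0 : V → ℕ) (F : V → Finset ℕ) (v : V) : Finset ℕ :=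
  if v ∈ o then insert (c0 v) (F v) else F v

/-- Additional input of LOCB2. `Sp` special colours, `Bk β ⊆ Sp` the colours which are blocked on the
side `β` (names of `H`): a vertex of this side missed in such a round keeps its own colour (type P)
and needs a partner of type T on the other side, a vertex of `o` or a vertex missed in another round
(`EX`). Special colours which are not blocked are allowed at `z` vertices of the side where misses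
occur (type T). `F` does not contain the own colours `c0` of the vertices of `o`. -/
structure LB2 (G Th : SimpleGraph V) (d z K : ℕ) (θ : ℝ) (sd pt : V → Bool)
    (Q : Bool → Finset ℕ) (P2 : Finset ℕ) (F A : V → Finset ℕ) (Sp : Finset ℕ)
    (Bk : Bool → Finset ℕ) (o : Finset V) (c0 : V → ℕ) : Prop where
  bip : ∀ v w, G.Adj v w → sd v ≠ sd w
  deg : ∀ v, (nb G v).card + (F v).card = d
  dgp : ∀ v i, |((nb G v ∩ prt pt i).card : ℝ) - d / 2| ≤ θ * d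
  eqs : ∀ i, (qtr sd pt false i).card = (qtr sd pt true i).card
  siz : ∀ i, (qtr sd pt false i).card ≤ (qtr sd pt false (!i)).card + 1
  FA : ∀ v, v ∉ o → F v ⊆ A v
  Ax : ∀ v, v ∉ o → ((A v).card : ℝ) ≤ θ * d
  Tx : ∀ v, ((nb Th v).card : ℝ) ≤ θ * d
  SP : Sp ⊆ P1 d Q P2
  Sc : (Sp.card : ℝ) ≤ θ * d
  BS : ∀ β, Bk β ⊆ Sp
  gA : ∀ b, b < d + 2 → b ∉ Sp → ((us A b \ o).card : ℝ) ≤ θ * d
  Ze : ∀ b ∈ Sp, ∀ β, b ∉ Bk β → 0 < need (Fo o c0 F) sd β b →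
    z ≤ ((sid sd β \ us A b) \ o).card
  Zz : 100 * K * (Sp.card + 1) ≤ z
  Zt : ∀ b ∈ Sp, ∀ v, v ∉ o → b ∉ A v → 100 * K * (nb Th v).card ≤ z
  ok : o.card ≤ K
  oc : ∀ v ∈ o, c0 v ∈ Sp ∧ c0 v ∉ F v
  oG : ∀ v ∈ o, ∀ w, G.Adj v w → w ∉ o ∧ c0 v ∈ A w
  oT : ∀ v ∈ o, ∀ w, Th.Adj v w → (w ∈ o → c0 v ≠ c0 w) ∧ (w ∉ o → c0 v ∈ A w)
  gs : ∀ b ∈ P1 d Q P2, |sg (Fo o c0 F) sd b| ≤ K
  sm1 : |((∑ b ∈ P1 d Q P2, sg (Fo o c0 F) sd b : ℤ) : ℝ)| ≤ θ * d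
  tot : ∀ β, ((∑ b ∈ P1 d Q P2, need (Fo o c0 F) sd β b : ℕ) : ℝ) ≤ (3 / 5 + θ) * d
  oY : ∀ j, (Q j).card ≤ 5 * ((Q j).filter (fun b => 0 ≤ sgp F sd pt (!j) b)).card
  EX : ∀ β, ∑ b ∈ Bk β, need (Fo o c0 F) sd β b ≤
    (o ∩ sid sd (!β)).card + ∑ b ∈ P1 d Q P2 \ Bk (!β), need (Fo o c0 F) sd (!β) b

/-- Input of LOCK2: as `LK`, only `oR` is weaker (`A` does not contain the names `c0` of `o`). -/
structure LK2 (G : SimpleGraph V) (d x y h s z : ℕ) (F A : V → Finset ℕ) (p : V → Fin 3)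
    (a : V → Bool) (C : Fin 3 → Finset ℕ) (Z o : Finset V) (c0 : V → ℕ) (Z0 R : Finset ℕ) :
    Prop where
  x1 : 1 ≤ x
  xd : 10 ^ 27 * x ≤ d
  yh : 100 * (y + 4 * x) ≤ h
  hd : 10 ^ 12 * h ≤ d
  dh : d ≤ 10 ^ 13 * h
  Zx : Z.card ≤ x
  deg : ∀ v, (nb G v).card + (F v).card = d
  inn : ∀ v, (nn G univ v).card ≤ x
  FA : ∀ v, v ∉ o → F v ⊆ A v
  Ax : ∀ v, v ∉ o → (A v).card + 1 ≤ x
  Fo : ∀ v ∈ o, (F v).card + 1 ≤ x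
  Flt : ∀ v, ∀ b ∈ F v, b < d + 2
  load : ∀ b, (us F b).card + 3 ≤ y
  oZ : o ⊆ Z
  o2 : o.card ≤ 2
  oc : ∀ v ∈ o, c0 v < d + 2 ∧ c0 v ∉ F v
  oi : Set.InjOn c0 (o : Set V)
  oR : o.Nonempty → R.card ≤ 1
  gA : ∀ b, b < d + 2 → b ∉ Z0 → b ∉ R → (us A b \ o).card ≤ x
  Ze : ∀ b ∈ Z0, z ≤ (univ.filter (fun v => b ∉ A v ∧ v ∉ o)).card
  ZC : ∀ i, Disjoint Z0 (C i)
  Zz : 8 * Z0.card + 20 ≤ z
  Zc : Z0.card ≤ x
  zV : 10 * z ≤ d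
  R2 : R.card ≤ 2
  Rlt : ∀ b ∈ R, b < d + 2
  Rc0 : ∀ v ∈ o, c0 v ∉ R
  RF : (univ.filter (fun v => (F v).card < R.card)).card ≤ 4 * z
  Rp : R.card ≤ 1 ∨ (∃ v w, v ≠ w ∧ ¬ G.Adj v w) ∨
    (∃ b ∈ R, Even (Fintype.card V - (us F b).card)) ∨
    ∃ b, b < d + 2 ∧ b ∉ R ∧ Odd (Fintype.card V - (us F b).card)
  cs : ∀ i l, (MP_db9399_lt.cell p a i l).card ≤ s ∧ s ≤ (MP_db9399_lt.cell p a i l).card + x
  Clt : ∀ i, ∀ b ∈ C i, b < d + 2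
  Cdis : ∀ i j, i ≠ j → Disjoint (C i) (C j)
  Ccard : ∀ i, (C i).card + h = 2 * s
  CF : ∀ v, v ∉ Z → Disjoint (F v) (C (p v))

/-- own colours with prescribed values on `o` -/
def OWN2 (G Th : SimpleGraph V) (d M : ℕ) (A : V → Finset ℕ) (o : Finset V) (c0 c : V → ℕ) :
    Prop :=
  (∀ v, c v < d + 2) ∧ (∀ v, v ∉ o → c v ∉ A v) ∧ (∀ v ∈ o, c v = c0 v) ∧
    (∀ v w, G.Adj v w → c v ≠ c w) ∧ (∀ v w, Th.Adj v w → c v ≠ c w) ∧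
    ∀ b, (univ.filter (fun v => c v = b)).card ≤ M

end defs

/-- LOCN2 (`LN` as in phase 1, own colours included in `F`). -/
def Stmt_LOCN2 : Prop :=
  ∀ (C g ρ : ℝ) (K : ℕ), 1 ≤ C → 0 < g → 0 < ρ → ∃ π0 : ℝ, 0 < π0 ∧ ∀ π : ℝ, 0 < π → π ≤ π0 →
    ∃ κ0 : ℝ, 0 < κ0 ∧ ∀ κ : ℝ, 0 < κ → κ ≤ κ0 → ∃ (θ : ℝ) (d0 : ℕ), 0 < θ ∧
    ∀ {V : Type u} [Fintype V] (G : SimpleGraph V) (d : ℕ) (sd pt : V → Bool)
      (Q : Bool → Finset ℕ) (P2 : Finset ℕ) (F : V → Finset ℕ), d0 ≤ d →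
      LI2 G d K C ρ π κ θ sd pt Q P2 F → LN G d g ρ θ sd pt F → ∃ t : V → V → ℕ, PEF G d F t

/-- LOCB2: a piece of type B. -/
def Stmt_LOCB2 : Prop :=
  ∀ (C ρ : ℝ) (K : ℕ), 1 ≤ C → 0 < ρ → 1 ≤ K → ∃ π0 : ℝ, 0 < π0 ∧
    ∀ π : ℝ, 0 < π → π ≤ π0 →
    ∃ κ0 : ℝ, 0 < κ0 ∧ ∀ κ : ℝ, 0 < κ → κ ≤ κ0 → ∃ (M : ℕ) (θ : ℝ) (d0 : ℕ), 0 < θ ∧
    ∀ {V : Type u} [Fintype V] (G Th : SimpleGraph V) (d z : ℕ) (sd pt : V → Bool)
      (Q : Bool → Finset ℕ) (P2 : Finset ℕ) (F A : V → Finset ℕ) (Sp : Finset ℕ)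
      (Bk : Bool → Finset ℕ) (o : Finset V) (c0 : V → ℕ), d0 ≤ d →
      LI2 G d K C ρ π κ θ sd pt Q P2 F →
      LB2 G Th d z K θ sd pt Q P2 F A Sp Bk o c0 →
      ∃ (c : V → ℕ) (t : V → V → ℕ), OWN2 G Th d M A o c0 c ∧
        PEF G d (fun v => insert (c v) (F v)) t

/-- LOCK2: a piece of type K. -/
def Stmt_LOCK2 : Prop :=
  ∀ {V : Type u} [Fintype V] (G : SimpleGraph V) (d x y h s z : ℕ) (F A : V → Finset ℕ)
    (p : V → Fin 3) (a : V → Bool) (C : Fin 3 → Finset ℕ) (Z o : Finset V) (c0 : V → ℕ)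
    (Z0 R : Finset ℕ), LK2 G d x y h s z F A p a C Z o c0 Z0 R →
    ∃ (c : V → ℕ) (t : V → V → ℕ), (∀ v, c v < d + 2) ∧ (∀ v, v ∉ o → c v ∉ A v) ∧
      (∀ v ∈ o, c v = c0 v) ∧ (∀ v w, G.Adj v w → c v ≠ c w) ∧
      (∀ v ∈ o, ∀ w, w ≠ v → c w ≠ c v) ∧
      (∀ b, (univ.filter (fun v => c v = b)).card ≤ 2) ∧
      PEF G d (fun v => insert (c v) (F v)) t

end Pool.Agent.Work.MP_db9399_da
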