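import Pool.Agent.Work.MP_db9399_da.Defs2

/-!
# MP_db9399, DENSE-ALL, phase 2: the global blocks and the theorem (owner helper62)

EMB2 → DECS → PARTS2 → SUP → PRE2 (from PRE) → OWNN → LOCN2, LOCB2, LOCK2 → ASSEMBLY2 → MAIN2.
-/

set_option autoImplicit false

namespace Pool.Agent.Work.MP_db9399_da

open Finset Classical
open Pool.Agent.Work.MP_db9399_all (nb)
open Pool.Agent.Work.MP_db9399_nc (nn)
open Pool.Agent.Work.MP_db9399_lt (us)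
open _root_.MP_db9399_co (IsTotalColoring IsDistThreeMatching EveryTotalColoringExtends)

universe u

/-- EMB with induced embedding (the construction of EMB has this property). -/
def Stmt_EMBI : Prop :=
  ∀ {V : Type u} [Fintype V] (G : SimpleGraph V) (d : ℕ), 4 ≤ d → (∀ v, (nb G v).card ≤ d) →
    d + 1 ≤ Fintype.card V →
    ∃ (W : Type u) (_ : Fintype W) (H : SimpleGraph W) (f : V → W), Function.Injective f ∧
      (∀ v w, H.Adj (f v) (f w) ↔ G.Adj v w) ∧ (∀ w, (nb H w).card = d) ∧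
      Fintype.card W ≤ 10 * Fintype.card V

/-- EMB2 (from EMBI): the regular graph with super vertices and gadgets. `c₀`, `t₀`: the colouring of
the matching `H₀`. -/
def Stmt_EMB2 : Prop :=
  ∀ C1 : ℝ, 1 ≤ C1 → ∃ (C : ℝ) (k d0 : ℕ), 1 ≤ C ∧
    ∀ {V : Type u} [Fintype V] (G : SimpleGraph V) (d : ℕ) (H₀ : G.Subgraph) (c₀ : V → ℕ)
      (t₀ : Sym2 V → ℕ), d0 ≤ d → (Fintype.card V : ℝ) ≤ C1 * d → d + 1 ≤ Fintype.card V →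
      (∀ v, (nb G v).card ≤ d) → IsDistThreeMatching H₀ → IsTotalColoring H₀.spanningCoe c₀ t₀ →
      (∀ v ∈ H₀.verts, c₀ v < d + 2) → (∀ e ∈ H₀.edgeSet, t₀ e < d + 2) →
      ∃ (W : Type u) (_ : Fintype W) (G' : SimpleGraph W) (X : HD W),
        (∀ w, (nb G' w).card = d) ∧ (Fintype.card W : ℝ) ≤ C * d ∧ HP k d G' X ∧
        ∀ (c : W → ℕ) (t : W → W → ℕ), TotH d G' X c t →
          ∃ (c₁ : V → ℕ) (t₁ : Sym2 V → ℕ), IsTotalColoring G c₁ t₁ ∧ (∀ v, c₁ v < d + 2) ∧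
            (∀ e ∈ G.edgeSet, t₁ e < d + 2) ∧ (∀ v ∈ H₀.verts, c₁ v = c₀ v) ∧
            ∀ e ∈ H₀.edgeSet, t₁ e = t₀ e

/-- the super vertices are exceptional, their gadgets are near-cliques -/
def SupP {V : Type u} {M : ℕ} (P : Pcs V M) (X : HD V) : Prop :=
  ∀ z ∈ X.S0, z ∈ P.V0 ∧ ∀ i, ∀ x ∈ X.Gd z i, x ∉ P.V0 → P.ty (P.pc x) = Ty.K

/-- SUP. PROOF. Let `x ∈ Gd z i` be outside `V0`, in the piece `n`. The neighbours of `x` are in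
`Gd z i ∪ {z}`, so at least `(1 - ζ) d - 1` vertices of `Gd z i` are in the piece. If `z ∉ V0` is in
the piece `n`, then it has at least `(1 - ζ) d` neighbours there, so `n` meets both gadgets and has at
least `(2 - 2 ζ) d - 2` vertices, impossible for type K; for N, B the gadget `S` violates `cut` (at
most `d` edges leave it). If `z ∈ V0` then a piece `n` of type N or B meeting the gadget is inside
the gadget (`cut`, degrees), so it has at most `d + 1` vertices, impossible (`nL`; B: both sides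
have at least `(1 - ζ) d` vertices). -/
def Stmt_SUP : Prop :=
  ∀ (C g ρ : ℝ) (k : ℕ), 1 ≤ C → 0 < g → g ≤ 1 / 10 → 0 < ρ → ρ ≤ 1 →
    ∃ (ζ0 : ℝ) (d0 : ℕ), 0 < ζ0 ∧
    ∀ {V : Type u} [Fintype V] {M : ℕ} (G : SimpleGraph V) (d : ℕ) (P : Pcs V M) (X : HD V)
      (ζ θ : ℝ), d0 ≤ d → ζ ≤ ζ0 → θ ≤ ζ0 → DecP C g ρ ζ θ G d P → HP k d G X → SupP P X

/-- DECS: decomposition with a scale gap for the given set `VH` (`σ` much larger than `ζ = hz ρ σ`):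
`VH`-vertices which are exceptional are not rigid and have at least `σ d` neighbours outside every
side (type B) and every piece (other types). PROOF. Positions as in DEC2 for `ρ`, scales `s_0 = 1 / 100`, `s_(j+1) = hz ρ s_j`; some `j ≤ k`
has no `z ∈ VH` with `s_(j+1) d / 2 < thd z ≤ 2 s_j d`; `σ = s_j`, `ζ = s_(j+1)`; the rigid vertices
and the vertices removed for divisibility are chosen outside `VH`. -/
def Stmt_DECS : Prop :=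
  ∀ C g : ℝ, 1 ≤ C → 0 < g → g ≤ 1 / 10 → ∃ M : ℕ, ∀ (k : ℕ) (hz ht : ℝ → ℝ → ℝ),
    (∀ x s, 0 < x → 0 < s → 0 < hz x s ∧ hz x s ≤ s / 100 ∧ 0 < ht x s) →
    ∃ (Rs Sg : Finset ℝ) (d0 : ℕ), (∀ ρ ∈ Rs, 0 < ρ ∧ ρ ≤ 1) ∧ (∀ σ ∈ Sg, 0 < σ ∧ σ ≤ 1 / 100) ∧
    ∀ {V : Type u} [Fintype V] (G : SimpleGraph V) (d : ℕ) (VH : Finset V), d0 ≤ d →
      (∀ v, (nb G v).card = d) → (Fintype.card V : ℝ) ≤ C * d → VH.card ≤ k →
      ∃ ρ ∈ Rs, ∃ σ ∈ Sg, ∃ P : Pcs V M, DecP C g ρ (hz ρ σ) (ht ρ σ) G d P ∧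
        ∀ z ∈ VH, z ∈ P.V0 → P.rg z = none ∧
          (∀ n β, P.ty n = Ty.B → σ * d ≤ ((nb G z \ sV P n β).card : ℝ)) ∧
          ∀ n, P.ty n ≠ Ty.B → σ * d ≤ ((nb G z \ pV P n).card : ℝ)

/-- DECS from DEC1. -/
def Stmt_DECS2 : Prop := Stmt_DEC1.{u} → Stmt_DECS.{u}

/-- the same pieces up to labels, parts, thirds and the sides of the types N and K -/
def SameP {V : Type u} {M : ℕ} (P P' : Pcs V M) : Prop :=
  P'.V0 = P.V0 ∧ P'.pc = P.pc ∧ P'.ty = P.ty ∧ P'.rg = P.rg ∧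
    ∀ v, P.ty (P.pc v) = Ty.B → P'.sd v = P.sd v

/-- PARTS2: PARTS keeps the pieces (the construction of PARTS has this property). -/
def Stmt_PARTS2 : Prop :=
  ∀ (C g ρ : ℝ) (M : ℕ), 1 ≤ C → 0 < g → g ≤ 1 / 10 → 0 < ρ → ρ ≤ 1 →
    ∃ ρ' K : ℝ, 0 < ρ' ∧ ρ' ≤ ρ ∧ 0 < K ∧ ∀ ε : ℝ, 0 < ε → ε ≤ 1 → ∃ ζ0 : ℝ, 0 < ζ0 ∧
    ∀ ζ : ℝ, 0 < ζ → ζ ≤ ζ0 → ∃ θ0 : ℝ, 0 < θ0 ∧ ∀ θ : ℝ, 0 < θ → θ ≤ θ0 → ∃ d0 : ℕ,
    ∀ {V : Type u} [Fintype V] (G : SimpleGraph V) (d : ℕ) (P : Pcs V M), d0 ≤ d →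
      DecP C g ρ ζ θ G d P →
      ∃ P' : Pcs V M, SameP P P' ∧ DecP C g ρ ζ θ G d P' ∧ PartL ρ' ε G d P' ∧
        PartD K ζ ε G d P'

/-- what DECS gives for `VH` -/
def VHp {V : Type u} [Fintype V] {M : ℕ} (σ : ℝ) (G : SimpleGraph V) (d : ℕ) (P : Pcs V M)
    (X : HD V) : Prop :=
  ∀ z ∈ X.VH, z ∈ P.V0 → P.rg z = none ∧
    (∀ n β, P.ty n = Ty.B → σ * d ≤ ((nb G z \ sV P n β).card : ℝ)) ∧
    ∀ n, P.ty n ≠ Ty.B → σ * d ≤ ((nb G z \ pV P n).card : ℝ)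

/-- PRE2: the prescribed edges and the colours of the exceptional vertices, phase 2. `Ss`: special
colours (all colours `c0`, `h0` of `VH` are special). -/
def Stmt_PRE2 : Prop :=
  ∀ (C g ρ ρ' K π κ ε σ : ℝ) (M k k2 : ℕ), 1 ≤ C → 0 < g → g ≤ 1 / 10 → 0 < ρ' → ρ' ≤ ρ →
    ρ ≤ 1 → 0 < K → 0 < σ → σ ≤ 1 / 100 → 0 < π → π ≤ σ / (1000 * (k + 1)) →
    0 < κ → κ ≤ σ / (1000 * (k + 1)) → 0 < ε →
    ∃ ε1 : ℝ, 0 < ε1 ∧ ε1 ≤ 1 ∧ ∀ ε2 : ℝ, 0 < ε2 → ε2 ≤ ε1 → ∃ ζ0 : ℝ, 0 < ζ0 ∧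
    ∀ ζ : ℝ, 0 < ζ → ζ ≤ ζ0 → ∃ θ0 : ℝ, 0 < θ0 ∧ ∀ θ : ℝ, 0 < θ → θ ≤ θ0 → ∃ d0 : ℕ,
    ∀ {V : Type u} [Fintype V] (G : SimpleGraph V) (d : ℕ) (P : Pcs V M) (A : Pal) (X : HD V)
      (Ss : Finset ℕ), d0 ≤ d →
      DecP C g ρ ζ θ G d P → PartL ρ' ε2 G d P → PartD K ζ ε2 G d P → PalP A d π κ →
      HP k d G X → SupP P X → VHp σ G d P X → Ss ⊆ A.C0 d → Ss.card ≤ k2 →
      (∀ v ∈ X.VH, X.c0 v ∈ Ss ∧ X.h0 v ∈ Ss) →
      ∃ (t : V → V → ℕ) (c : V → ℕ) (Sp : Finset ℕ), PreP2 ε ζ k G d P A X Ss t c Sp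

/-- PRE2 from PRE (note 1443, (3), (4)). -/
def Stmt_PREX : Prop := Stmt_PRE.{u} → Stmt_PRE2.{u}

/-- The theorem for the regular graph. -/
def Stmt_REG2 : Prop :=
  ∀ (C : ℝ) (k : ℕ), 1 ≤ C → ∃ d0 : ℕ,
    ∀ {V : Type u} [Fintype V] (G : SimpleGraph V) (d : ℕ) (X : HD V), d0 ≤ d →
      (∀ v, (nb G v).card = d) → (Fintype.card V : ℝ) ≤ C * d → HP k d G X →
      ∃ (c : V → ℕ) (t : V → V → ℕ), TotH d G X c t

/-- ASSEMBLY2. -/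
def Stmt_ASSEMBLY2 : Prop :=
  Stmt_DECS.{u} → Stmt_PARTS2.{u} → Stmt_SUP.{u} → Stmt_PRE2.{u} → Stmt_OWNN.{u} →
    Stmt_LOCN2.{u} → Stmt_LOCB2.{u} → Stmt_LOCK2.{u} → Stmt_REG2.{u}

/-- Q1 for dense graphs. -/
def Stmt_MAIN2 : Prop :=
  ∀ η : ℝ, 0 < η → ∃ n0 : ℕ, ∀ {V : Type u} [Fintype V] (G : SimpleGraph V) [DecidableRel G.Adj]
    (k : ℕ), n0 ≤ Fintype.card V → η * Fintype.card V ≤ G.maxDegree → G.maxDegree + 2 ≤ k →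
    ∀ H : G.Subgraph, IsDistThreeMatching H → EveryTotalColoringExtends H (Fin k)

/-- FIN2. PROOF. `k ≥ 2 Δ + 1`: greedy (first the vertices, then the edges outside `H`). Otherwise
`d = k - 2 ≤ 2 Δ`; if `d + 1 > |V|` add isolated vertices. Then EMB2 and REG2. -/
def Stmt_FIN2 : Prop := Stmt_EMB2.{u} → Stmt_REG2.{u} → Stmt_MAIN2.{u}

end Pool.Agent.Work.MP_db9399_da
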