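import Pool.Agent.Work.MP_db9399_da.Local
import Pool.Agent.Work.MP_db9399_dn.Interface
import Pool.Agent.Work.MP_db9399_co.Defs

/-!
# MP_db9399, DENSE-ALL: global definitions (owner helper62)

`d` = degree of the regular graph `G`, colours are natural numbers `< d + 2`. `V0` = exceptional
vertices. All edges outside the bulk are prescribed by PRE, then every piece is finished alone by
the local theorems of `Local.lean`, on its own type `Ts P n`.
Phase 1: total colourings (no precoloured matching).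
-/

set_option autoImplicit false

namespace Pool.Agent.Work.MP_db9399_da

open Finset Classical
open Pool.Agent.Work.MP_db9399_all (nb)
open Pool.Agent.Work.MP_db9399_nc (nn)
open Pool.Agent.Work.MP_db9399_lt (us)
open Pool.Agent.Work.MP_db9399_dn (Tot)

universe u

/-- types of pieces: empty, near-clique, nonbipartite, bipartite -/
inductive Ty where
  | E | K | N | B
deriving DecidableEq

/-- The pieces. `V0` exceptional vertices, `pc v` index of the piece of `v` (for `v ∉ V0`), `ty n` its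
type, `rg z = some (n, β)` for the rigid vertices `z ∈ V0`: vertices of the larger side of a
bipartite piece `n`, almost all neighbours are in the side `β`; `sd` sides (types N, B; in type K:
the two halves of the thirds), `pt` parts (types N, B), `th` thirds (type K). -/
structure Pcs (V : Type u) (M : ℕ) where
  V0 : Finset V
  pc : V → Fin M
  ty : Fin M → Ty
  rg : V → Option (Fin M × Bool)
  sd : V → Bool
  pt : V → Bool
  th : V → Fin 3

section defs
variable {V : Type u} {M : ℕ}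

/-- the graph of the edges which are left for the local theorems -/
def bulk (G : SimpleGraph V) (P : Pcs V M) : SimpleGraph V where
  Adj v w := G.Adj v w ∧ v ∉ P.V0 ∧ w ∉ P.V0 ∧ P.pc v = P.pc w ∧
    (P.ty (P.pc v) = Ty.B → P.sd v ≠ P.sd w)
  symm := ⟨fun _ _ h => ⟨h.1.symm, h.2.2.1, h.2.1, h.2.2.2.1.symm,
    fun h' => (h.2.2.2.2 (h.2.2.2.1 ▸ h')).symm⟩⟩
  loopless := ⟨fun v h => G.loopless.irrefl v h.1⟩

/-- the graph of the prescribed edges -/
def thin (G : SimpleGraph V) (P : Pcs V M) : SimpleGraph V where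
  Adj v w := G.Adj v w ∧ ¬ (bulk G P).Adj v w
  symm := ⟨fun _ _ h => ⟨h.1.symm, fun h' => h.2 h'.symm⟩⟩
  loopless := ⟨fun v h => G.loopless.irrefl v h.1⟩

/-- the vertices of the piece `n`, as a type -/
abbrev Ts (P : Pcs V M) (n : Fin M) : Type u := {v : V // v ∉ P.V0 ∧ P.pc v = n}

/-- bulk graph of the piece `n` -/
def bk (G : SimpleGraph V) (P : Pcs V M) (n : Fin M) : SimpleGraph (Ts P n) :=
  (bulk G P).comap (fun v => v.1)

/-- prescribed edges inside the piece `n` (only type B) -/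
def tk (G : SimpleGraph V) (P : Pcs V M) (n : Fin M) : SimpleGraph (Ts P n) :=
  (thin G P).comap (fun v => v.1)

/-- sides of the piece `n` -/
def sdn (P : Pcs V M) (n : Fin M) : Ts P n → Bool := fun v => P.sd v.1

/-- parts of the piece `n` -/
def ptn (P : Pcs V M) (n : Fin M) : Ts P n → Bool := fun v => P.pt v.1

/-- thirds of the piece `n` -/
def thn (P : Pcs V M) (n : Fin M) : Ts P n → Fin 3 := fun v => P.th v.1

variable [Fintype V]

/-- colours of the prescribed edges at `v` -/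
noncomputable def Fc (G : SimpleGraph V) (P : Pcs V M) (t : V → V → ℕ) (v : V) : Finset ℕ :=
  (nb (thin G P) v).image (t v)

/-- the same on the piece `n` -/
noncomputable def Fn (G : SimpleGraph V) (P : Pcs V M) (t : V → V → ℕ) (n : Fin M) :
    Ts P n → Finset ℕ := fun v => Fc G P t v.1

/-- the vertices of the piece `n`, as a set of vertices of the whole graph -/
noncomputable def pV (P : Pcs V M) (n : Fin M) : Finset V :=
  univ.filter (fun v => v ∉ P.V0 ∧ P.pc v = n)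

/-- the side `β` of the piece `n` -/
noncomputable def sV (P : Pcs V M) (n : Fin M) (β : Bool) : Finset V :=
  univ.filter (fun v => v ∉ P.V0 ∧ P.pc v = n ∧ P.sd v = β)

/-- the side `β` of the part `i` of the piece `n` -/
noncomputable def qV (P : Pcs V M) (n : Fin M) (β i : Bool) : Finset V :=
  univ.filter (fun v => v ∉ P.V0 ∧ P.pc v = n ∧ P.sd v = β ∧ P.pt v = i)

/-- the third `l` of the piece `n` -/
noncomputable def tV (P : Pcs V M) (n : Fin M) (l : Fin 3) : Finset V :=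
  univ.filter (fun v => v ∉ P.V0 ∧ P.pc v = n ∧ P.th v = l)

/-- number of (ordered) pairs `(v, w)` with `v ∈ A`, `w ∈ B`, `v w` an edge of `H` -/
noncomputable def eb (H : SimpleGraph V) (A B : Finset V) : ℕ := ∑ v ∈ A, (nb H v ∩ B).card

/-- Result of DEC for the `d`-regular graph `G` on at most `C d` vertices. `g`: bound between the
types K and N, `ρ`: cuts and distance to bipartite, `ζ`: thin degrees outside `V0`, `θ`: size of
`V0` and total number of thin edges. The constants are used with `θ ≪ ζ ≪ ρ, g`. -/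
structure DecP (C g ρ ζ θ : ℝ) (G : SimpleGraph V) (d : ℕ) (P : Pcs V M) : Prop where
  reg : ∀ v, (nb G v).card = d
  siz : (Fintype.card V : ℝ) ≤ C * d
  V0c : (P.V0.card : ℝ) ≤ θ * d
  thd : ∀ v, v ∉ P.V0 → ((nb (thin G P) v).card : ℝ) ≤ ζ * d
  ths : ∑ v ∈ univ \ P.V0, ((nb (thin G P) v).card : ℝ) ≤ θ * (d : ℝ) ^ 2
  emp : ∀ n, P.ty n = Ty.E → IsEmpty (Ts P n)
  kL : ∀ n, P.ty n = Ty.K → (1 - ζ) * d ≤ (Fintype.card (Ts P n) : ℝ)
  kU : ∀ n, P.ty n = Ty.K → (Fintype.card (Ts P n) : ℝ) ≤ (1 + g) * d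
  hubK : ∀ n, P.ty n = Ty.K → ∀ z ∈ P.V0, ζ / 4 * d ≤ ((pV P n \ nb G z).card : ℝ)
  hubB : ∀ n β, P.ty n = Ty.B → ∀ z ∈ P.V0, P.rg z ≠ some (n, β) →
    ζ / 4 * d ≤ ((sV P n β \ nb G z).card : ℝ)
  out : ∀ n β, P.ty n = Ty.B → ∀ z ∈ P.V0, P.rg z ≠ some (n, β) →
    ζ / 4 * d ≤ ((nb G z \ sV P n β).card : ℝ)
  rgd : ∀ z ∈ P.V0, ∀ n β, P.rg z = some (n, β) →
    P.ty n = Ty.B ∧ ((nb G z \ sV P n β).card : ℝ) ≤ ζ * d
  rgs : ∀ z ∈ P.V0, ∀ z' ∈ P.V0, ∀ n β β', P.rg z = some (n, β) → P.rg z' = some (n, β') →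
    β = β'
  nL : ∀ n, P.ty n = Ty.N → (1 + g / 2) * d ≤ (Fintype.card (Ts P n) : ℝ)
  n4 : ∀ n, P.ty n = Ty.N → 4 ∣ Fintype.card (Ts P n)
  bal : ∀ n, P.ty n = Ty.B → (sV P n false).card = (sV P n true).card
  cut : ∀ n, P.ty n = Ty.N ∨ P.ty n = Ty.B → ∀ S : Finset (Ts P n),
    ρ * S.card * (univ \ S).card ≤ ∑ v ∈ S, ((nb (bk G P n) v \ S).card : ℝ)
  nbi : ∀ n, P.ty n = Ty.N → ∀ S : Finset (Ts P n), ρ * (d : ℝ) ^ 2 ≤
    ∑ v ∈ S, ((nb (bk G P n) v ∩ S).card : ℝ) +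
      ∑ v ∈ univ \ S, ((nb (bk G P n) v \ S).card : ℝ)

/-- Result of PARTS, what the local theorems need. -/
structure PartL (ρ ε : ℝ) (G : SimpleGraph V) (d : ℕ) (P : Pcs V M) : Prop where
  cutP : ∀ n, P.ty n = Ty.N ∨ P.ty n = Ty.B → ∀ i, ∀ S ⊆ prt (ptn P n) i,
    ρ * S.card * (prt (ptn P n) i \ S).card ≤
      ∑ v ∈ S, (((nb (bk G P n) v \ S) ∩ qtr (sdn P n) (ptn P n) (!(sdn P n v)) i).card : ℝ)
  nS : ∀ n, P.ty n = Ty.N → ∀ β i,
    4 * (qtr (sdn P n) (ptn P n) β i).card = Fintype.card (Ts P n)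
  nD : ∀ n, P.ty n = Ty.N → ∀ v β i,
    |((nb (bk G P n) v ∩ qtr (sdn P n) (ptn P n) β i).card : ℝ) - d / 4| ≤ ε * d
  bB : ∀ n, P.ty n = Ty.B → ∀ i, (qtr (sdn P n) (ptn P n) false i).card =
    (qtr (sdn P n) (ptn P n) true i).card
  bS : ∀ n, P.ty n = Ty.B → ∀ i, (qtr (sdn P n) (ptn P n) false i).card ≤
    (qtr (sdn P n) (ptn P n) false (!i)).card + 1
  bD : ∀ n, P.ty n = Ty.B → ∀ v i,
    |((nb (bk G P n) v ∩ prt (ptn P n) i).card : ℝ) - d / 2| ≤ ε * d
  kC : ∀ n, P.ty n = Ty.K → ∀ i l,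
    |((MP_db9399_lt.cell (thn P n) (sdn P n) i l).card : ℝ) - (Fintype.card (Ts P n) : ℝ) / 6| ≤
      ε * d

/-- number of label classes of the cells of the piece `n` -/
def rr (P : Pcs V M) (n : Fin M) : ℕ := if P.ty n = Ty.K then 3 else 2

/-- label of a vertex: third (type K) or part (types N, B) -/
def lbl (P : Pcs V M) (v : V) : Fin 3 :=
  if P.ty (P.pc v) = Ty.K then P.th v else if P.pt v then 1 else 0

/-- cells: the side `β` of the piece `n` (types N, B), the whole piece (type K) -/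
noncomputable def cel (P : Pcs V M) (n : Fin M) (β : Bool) : Finset V :=
  if P.ty n = Ty.K then pV P n else sV P n β

/-- label class of a cell -/
noncomputable def clb (P : Pcs V M) (n : Fin M) (β : Bool) (i : Fin 3) : Finset V :=
  (cel P n β).filter (fun v => lbl P v = i)

/-- the labels split the part of `S` in the cell `(n, β)` proportionally -/
def Okc (P : Pcs V M) (S : Finset V) (n : Fin M) (β : Bool) : Prop :=
  ∀ i : Fin 3, i.val < rr P n → |((S ∩ clb P n β i).card : ℝ) -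
    ((S ∩ cel P n β).card : ℝ) / rr P n| ≤ ((S ∩ cel P n β).card : ℝ) / 100

/-- Result of PARTS, what PRE needs. `eP`: thin edges between two cells (at least `K ζ d`) are split
proportionally by the labels; `big`: so are the edges from `z ∈ V0` to a cell (at least `ζ² d`);
`bad`: a cell is bad for `z` if there are less than `1 / ε` edges or they are not split
proportionally, there are few edges to bad cells; `bN`: the two sides of a piece of type N have
almost the same sums of thin degrees. (`K` is large.) -/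
structure PartD (K ζ ε : ℝ) (G : SimpleGraph V) (d : ℕ) (P : Pcs V M) : Prop where
  eP : ∀ n m β β', K * ζ * d ≤ (eb (thin G P) (cel P n β) (cel P m β') : ℝ) →
    ∀ i j : Fin 3, i.val < rr P n → j.val < rr P m →
    |(eb (thin G P) (clb P n β i) (clb P m β' j) : ℝ) -
      (eb (thin G P) (cel P n β) (cel P m β') : ℝ) / (rr P n * rr P m)| ≤
      (eb (thin G P) (cel P n β) (cel P m β') : ℝ) / 100
  big : ∀ z ∈ P.V0, ∀ n β, ζ ^ 2 * d ≤ ((nb G z ∩ cel P n β).card : ℝ) → Okc P (nb G z) n β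
  bad : ∑ z ∈ P.V0, ∑ n, ∑ β, (if 1 / ε ≤ ((nb G z ∩ cel P n β).card : ℝ) ∧
    Okc P (nb G z) n β then (0 : ℝ) else ((nb G z ∩ cel P n β).card : ℝ)) ≤
      K / ε * P.V0.card
  bN : ∀ n, P.ty n = Ty.N → |(∑ v ∈ sV P n false, ((nb (thin G P) v).card : ℝ)) -
    ∑ v ∈ sV P n true, ((nb (thin G P) v).card : ℝ)| ≤ K * ζ * d

end defs

/-- The palettes: `C j` forbidden at the third `j` of pieces of type K, `Q i` at the part `i` of
pieces of type N, B; `P2` is `P''`. -/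
structure Pal where
  C : Fin 3 → Finset ℕ
  Q : Bool → Finset ℕ
  P2 : Finset ℕ

/-- the colours outside `C 0`, `C 1`, `C 2` (about `9 / 10 ^ 13 * d`) -/
def Pal.C0 (A : Pal) (d : ℕ) : Finset ℕ := range (d + 2) \ (A.C 0 ∪ A.C 1 ∪ A.C 2)

/-- properties of the palettes -/
structure PalP (A : Pal) (d : ℕ) (π κ : ℝ) : Prop where
  Clt : ∀ j, A.C j ⊆ range (d + 2)
  Cdis : ∀ i j, i ≠ j → Disjoint (A.C i) (A.C j)
  Cc : ∀ j, |((A.C j).card : ℝ) - (1 / 3 - 3 / 10 ^ 13) * d| ≤ 1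
  Q0 : A.Q false ⊆ A.C 0
  Q1 : A.Q true ⊆ A.C 1
  P2C : A.P2 ⊆ A.C 2
  Qc : ∀ i, κ * d ≤ ((A.Q i).card : ℝ) ∧ ((A.Q i).card : ℝ) ≤ 2 * κ * d
  Pc : π * d ≤ (A.P2.card : ℝ) ∧ (A.P2.card : ℝ) ≤ 2 * π * d

section pre
variable {V : Type u} [Fintype V] {M : ℕ}

/-- Result of PRE. `t` colours the prescribed edges, `c` the vertices of `V0` (different colours
`Sp` outside the `C j`). `ε`: small (chosen before `ζ`). -/
structure PreP (ε ζ : ℝ) (G : SimpleGraph V) (d : ℕ) (P : Pcs V M) (A : Pal) (t : V → V → ℕ)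
    (c : V → ℕ) (Sp : Finset ℕ) : Prop where
  sym : ∀ v w, t v w = t w v
  lt : ∀ v w, (thin G P).Adj v w → t v w < d + 2
  inj : ∀ v, Set.InjOn (t v) (nb (thin G P) v : Set V)
  own : Sp = P.V0.image c
  SC : Sp ⊆ A.C0 d
  oin : Set.InjOn c (P.V0 : Set V)
  onb : ∀ z ∈ P.V0, c z ∉ Fc G P t z
  rN : ∀ v, v ∉ P.V0 → P.ty (P.pc v) = Ty.N ∨ P.ty (P.pc v) = Ty.B →
    Disjoint (Fc G P t v) (A.Q (P.pt v))
  rK : ∀ v, v ∉ P.V0 → P.ty (P.pc v) = Ty.K → Disjoint (Fc G P t v) (A.C (P.th v))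
  load : ∀ n b, ((us (Fn G P t n) b).card : ℝ) ≤ ε * ζ * d
  sPQ : ∀ n, P.ty n = Ty.N ∨ P.ty n = Ty.B → ∀ i, ∀ b ∈ A.Q (!i) ∪ A.P2,
    |sgp (Fn G P t n) (sdn P n) (ptn P n) i b| ≤ 8
  gs : ∀ n, P.ty n = Ty.B → ∀ b ∈ P1 d A.Q A.P2, |sg (Fn G P t n) (sdn P n) b| ≤ 8
  sm1 : ∀ n, P.ty n = Ty.B →
    |((∑ b ∈ P1 d A.Q A.P2, sg (Fn G P t n) (sdn P n) b : ℤ) : ℝ)| ≤ ε * d
  sm2 : ∀ n, P.ty n = Ty.N ∨ P.ty n = Ty.B → ∀ i,
    |((∑ b ∈ A.P2, sgp (Fn G P t n) (sdn P n) (ptn P n) i b : ℤ) : ℝ)| ≤ ε * d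
  smQ : ∀ n, P.ty n = Ty.N ∨ P.ty n = Ty.B → ∀ i,
    |((∑ b ∈ A.Q (!i), sgp (Fn G P t n) (sdn P n) (ptn P n) i b : ℤ) : ℝ)| ≤ ε * d
  tot : ∀ n, P.ty n = Ty.B → ∀ β,
    ((∑ b ∈ P1 d A.Q A.P2, need (Fn G P t n) (sdn P n) β b : ℕ) : ℝ) ≤ 3 / 5 * d
  oY : ∀ n, P.ty n = Ty.B → ∀ j, (A.Q j).card ≤
    4 * ((A.Q j).filter (fun b => 0 ≤ sgp (Fn G P t n) (sdn P n) (ptn P n) (!j) b)).card
  adj : ∀ z ∈ P.V0, ∀ n β, P.rg z = some (n, β) →
    need (Fn G P t n) (sdn P n) β (c z) = 0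

end pre

end Pool.Agent.Work.MP_db9399_da
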