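import Pool.Agent.Work.MP_db9399_da.Defs

/-!
# MP_db9399, DENSE-ALL: the global blocks and the theorem (owner helper62)

EMB → DEC → PARTS → PRE → OWNN → LOCN, LOCB, LOCK → assembly.
-/

set_option autoImplicit false

namespace Pool.Agent.Work.MP_db9399_da

open Finset Classical
open Pool.Agent.Work.MP_db9399_all (nb)
open Pool.Agent.Work.MP_db9399_nc (nn)
open Pool.Agent.Work.MP_db9399_lt (us)
open Pool.Agent.Work.MP_db9399_dn (Tot)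

universe u

/-- EMB: regular supergraph. -/
def Stmt_EMB : Prop :=
  ∀ {V : Type u} [Fintype V] (G : SimpleGraph V) (d : ℕ), 4 ≤ d → (∀ v, (nb G v).card ≤ d) →
    d + 1 ≤ Fintype.card V →
    ∃ (W : Type u) (_ : Fintype W) (H : SimpleGraph W) (f : V → W), Function.Injective f ∧
      (∀ v w, G.Adj v w → H.Adj (f v) (f w)) ∧ (∀ w, (nb H w).card = d) ∧
      Fintype.card W ≤ 10 * Fintype.card V

section dec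
variable {V : Type u} [Fintype V] {p : ℕ}

/-- the vertices in the position `a` -/
noncomputable def pos (po : V → Fin p) (a : Fin p) : Finset V := univ.filter (fun v => po v = a)

/-- thin degree: number of neighbours of `v` outside the mate of the position of `v` -/
noncomputable def thd (G : SimpleGraph V) (po : V → Fin p) (mt : Fin p → Fin p) (v : V) : ℕ :=
  (nb G v \ pos po (mt (po v))).card

/-- Positions with mates: `mt a = a` one-sided piece, `mt a ≠ a` the two sides of a piece. `γ`: cuts,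
`h`: thin edges. -/
structure PosP (C γ h : ℝ) (G : SimpleGraph V) (d : ℕ) (po : V → Fin p) (mt : Fin p → Fin p) :
    Prop where
  pC : (p : ℝ) ≤ 3 * C
  inv : ∀ a, mt (mt a) = a
  big : ∀ a, d ≤ 3 * (pos po a).card
  sum : ((∑ v, thd G po mt v : ℕ) : ℝ) ≤ h * (d : ℝ) ^ 2
  mov : ∀ v a, d + 3 ≤ 3 * (pos po (po v)).card →
    (nb G v ∩ pos po (mt a)).card ≤ (nb G v ∩ pos po (mt (po v))).card
  cut : ∀ a, mt a = a → ∀ S ⊆ pos po a, d ≤ 3 * S.card → d ≤ 3 * (pos po a \ S).card →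
    γ * (d : ℝ) ^ 2 ≤ (eb G S (pos po a \ S) : ℝ)
  nbi : ∀ a, mt a = a → ∀ S ⊆ pos po a, d ≤ 3 * S.card → d ≤ 3 * (pos po a \ S).card →
    2 * γ * (d : ℝ) ^ 2 ≤ (eb G S S : ℝ) + eb G (pos po a \ S) (pos po a \ S)
  cu2 : ∀ a, mt a ≠ a → ∀ S ⊆ pos po a, ∀ T ⊆ pos po (mt a), d ≤ 3 * S.card →
    d ≤ 3 * (pos po a \ S).card → d ≤ 3 * T.card → d ≤ 3 * (pos po (mt a) \ T).card →
    γ * (d : ℝ) ^ 2 ≤ (eb G S (pos po (mt a) \ T) : ℝ) + eb G (pos po a \ S) T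

end dec

/-- DEC1: the minimiser. -/
def Stmt_DEC1 : Prop :=
  ∀ (C : ℝ) (h : ℝ → ℝ), 1 ≤ C → (∀ x, 0 < x → 0 < h x) →
    ∃ Gs : Finset ℝ, (∀ γ ∈ Gs, 0 < γ ∧ γ ≤ 1 / 100) ∧
    ∀ {V : Type u} [Fintype V] (G : SimpleGraph V) (d : ℕ), 1 ≤ d →
      (∀ v, (nb G v).card = d) → (Fintype.card V : ℝ) ≤ C * d → Nonempty V →
      ∃ γ ∈ Gs, ∃ (p : ℕ) (po : V → Fin p) (mt : Fin p → Fin p), PosP C γ (h γ) G d po mt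

/-- DEC: decomposition into pieces; `hz`, `ht` prescribe `ζ` and `θ` for every scale `ρ`. -/
def Stmt_DEC : Prop :=
  ∀ C g : ℝ, 1 ≤ C → 0 < g → g ≤ 1 / 10 → ∃ M : ℕ, ∀ hz ht : ℝ → ℝ,
    (∀ x, 0 < x → 0 < hz x ∧ hz x ≤ 1 / 100 ∧ 0 < ht x) →
    ∃ (Rs : Finset ℝ) (d0 : ℕ), (∀ ρ ∈ Rs, 0 < ρ ∧ ρ ≤ 1) ∧
    ∀ {V : Type u} [Fintype V] (G : SimpleGraph V) (d : ℕ), d0 ≤ d →
      (∀ v, (nb G v).card = d) → (Fintype.card V : ℝ) ≤ C * d →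
      ∃ ρ ∈ Rs, ∃ P : Pcs V M, DecP C g ρ (hz ρ) (ht ρ) G d P

/-- DEC2: the pieces from the positions. -/
def Stmt_DEC2 : Prop := Stmt_DEC1.{u} → Stmt_DEC.{u}

/-- PARTS: parts, sides of the nonbipartite pieces, cells of the near-cliques. -/
def Stmt_PARTS : Prop :=
  ∀ (C g ρ : ℝ) (M : ℕ), 1 ≤ C → 0 < g → g ≤ 1 / 10 → 0 < ρ → ρ ≤ 1 →
    ∃ ρ' K : ℝ, 0 < ρ' ∧ ρ' ≤ ρ ∧ 0 < K ∧ ∀ ε : ℝ, 0 < ε → ε ≤ 1 → ∃ ζ0 : ℝ, 0 < ζ0 ∧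
    ∀ ζ : ℝ, 0 < ζ → ζ ≤ ζ0 → ∃ θ0 : ℝ, 0 < θ0 ∧ ∀ θ : ℝ, 0 < θ → θ ≤ θ0 → ∃ d0 : ℕ,
    ∀ {V : Type u} [Fintype V] (G : SimpleGraph V) (d : ℕ) (P : Pcs V M), d0 ≤ d →
      DecP C g ρ ζ θ G d P →
      ∃ P' : Pcs V M, DecP C g ρ ζ θ G d P' ∧ PartL ρ' ε G d P' ∧ PartD K ζ ε G d P'

/-- PRE: the prescribed edges and the colours of the exceptional vertices. -/
def Stmt_PRE : Prop :=
  ∀ (C g ρ ρ' K π κ ε : ℝ) (M : ℕ), 1 ≤ C → 0 < g → g ≤ 1 / 10 → 0 < ρ' → ρ' ≤ ρ → ρ ≤ 1 →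
    0 < K → 0 < π → π ≤ 1 / 100 → 0 < κ → κ ≤ 1 / 100 → 0 < ε →
    ∃ ε1 : ℝ, 0 < ε1 ∧ ε1 ≤ 1 ∧ ∀ ε2 : ℝ, 0 < ε2 → ε2 ≤ ε1 → ∃ ζ0 : ℝ, 0 < ζ0 ∧
    ∀ ζ : ℝ, 0 < ζ → ζ ≤ ζ0 → ∃ θ0 : ℝ, 0 < θ0 ∧ ∀ θ : ℝ, 0 < θ → θ ≤ θ0 → ∃ d0 : ℕ,
    ∀ {V : Type u} [Fintype V] (G : SimpleGraph V) (d : ℕ) (P : Pcs V M) (A : Pal), d0 ≤ d →
      DecP C g ρ ζ θ G d P → PartL ρ' ε2 G d P → PartD K ζ ε2 G d P → PalP A d π κ →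
      ∃ (t : V → V → ℕ) (c : V → ℕ) (Sp : Finset ℕ), PreP ε ζ G d P A t c Sp

/-- OWNN (from `MP_db9399_exp.Stmt_VCX`): own colours of all pieces of type N, from almost complete
lists, every colour at most `s1` times. -/
def Stmt_OWNN : Prop :=
  ∀ (C g ρ : ℝ) (M : ℕ), 1 ≤ C → 0 < g → g ≤ 1 / 10 → 0 < ρ → ρ ≤ 1 →
    ∃ (s ζ0 : ℝ) (s1 d0 : ℕ), 0 < s ∧ s ≤ 1 ∧ 0 < ζ0 ∧
    ∀ {V : Type u} [Fintype V] (G : SimpleGraph V) (d : ℕ) (P : Pcs V M) (ζ θ : ℝ)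
      (Pl : Finset ℕ) (F : V → Finset ℕ), d0 ≤ d → ζ ≤ ζ0 → θ ≤ ζ0 → DecP C g ρ ζ θ G d P →
      (1 - s) * d ≤ (Pl.card : ℝ) → (∀ v, ((F v).card : ℝ) ≤ ζ0 * d) →
      ∃ c : V → ℕ,
        (∀ v, v ∉ P.V0 → P.ty (P.pc v) = Ty.N → c v ∈ Pl ∧ c v ∉ F v) ∧
        (∀ v w, v ∉ P.V0 → P.ty (P.pc v) = Ty.N → w ∉ P.V0 → P.ty (P.pc w) = Ty.N →
          G.Adj v w → c v ≠ c w) ∧
        ∀ b, (univ.filter (fun v => v ∉ P.V0 ∧ P.ty (P.pc v) = Ty.N ∧ c v = b)).card ≤ s1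

/-- Total colouring of dense graphs (phase 1: no precoloured matching). -/
def Stmt_MAIN1 : Prop :=
  ∀ η : ℝ, 0 < η → ∃ n0 : ℕ, ∀ {V : Type u} [Fintype V] (G : SimpleGraph V) (d k : ℕ),
    n0 ≤ Fintype.card V → η * Fintype.card V ≤ d → d + 1 ≤ Fintype.card V →
    (∀ v, (nb G v).card ≤ d) → d + 2 ≤ k →
    ∃ (c : V → Fin k) (t : V → V → Fin k), Tot G c t

/-- ASSEMBLY. -/
def Stmt_ASSEMBLY : Prop :=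
  Stmt_EMB.{u} → Stmt_DEC.{u} → Stmt_PARTS.{u} → Stmt_PRE.{u} → Stmt_OWNN.{u} → Stmt_LOCN.{u} →
    Stmt_LOCB.{u} → Stmt_LOCK.{u} → Stmt_MAIN1.{u}

end Pool.Agent.Work.MP_db9399_da
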