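import Pool.Agent.Work.MP_db9399_da.Local2
import Pool.Agent.Work.MP_db9399_da.Frame

/-!
# MP_db9399, DENSE-ALL, phase 2: global definitions (owner helper62)

`G` is `d`-regular, it contains the given graph without the low ends of the matching, `X : HD V` is
the precoloured matching seen in `G`: `VH` ends of large degree (own colour `c0`, colour of the
matching edge `h0`), `S0` super vertices (several low ends merged), `H` the matching edges inside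
`G` (each meets `VH`). `nm w`: forbidden own colours (names) of `w`, `ne z w`: forbidden colours of
the edge from the super vertex `z` to `w`. `bulk2` = bulk without `H`, `thin2` = all other edges of
`G` (prescribed by PRE2). See note 1443.
-/

set_option autoImplicit false

namespace Pool.Agent.Work.MP_db9399_da

open Finset Classical
open Pool.Agent.Work.MP_db9399_all (nb)
open Pool.Agent.Work.MP_db9399_nc (nn)
open Pool.Agent.Work.MP_db9399_lt (us)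
open Pool.Agent.Work.MP_db9399_dn (Tot)

universe u

/-- The precoloured matching in the regular graph. `p0 v`: own colour of the partner of `v ∈ VH`,
`Gd z i`: the two gadgets of the super vertex `z`. -/
structure HD (V : Type u) where
  VH : Finset V
  S0 : Finset V
  H : SimpleGraph V
  c0 : V → ℕ
  h0 : V → ℕ
  p0 : V → ℕ
  nm : V → Finset ℕ
  ne : V → V → Finset ℕ
  Gd : V → Bool → Finset V

section defs
variable {V : Type u} {M : ℕ}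

/-- bulk graph without the edges of the matching -/
def bulk2 (G : SimpleGraph V) (X : HD V) (P : Pcs V M) : SimpleGraph V where
  Adj v w := (bulk G P).Adj v w ∧ ¬ X.H.Adj v w
  symm := ⟨fun _ _ h => ⟨h.1.symm, fun h' => h.2 h'.symm⟩⟩
  loopless := ⟨fun v h => (bulk G P).loopless.irrefl v h.1⟩

/-- the graph of the prescribed edges, with the matching -/
def thin2 (G : SimpleGraph V) (X : HD V) (P : Pcs V M) : SimpleGraph V where
  Adj v w := G.Adj v w ∧ ¬ (bulk2 G X P).Adj v w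
  symm := ⟨fun _ _ h => ⟨h.1.symm, fun h' => h.2 h'.symm⟩⟩
  loopless := ⟨fun v h => G.loopless.irrefl v h.1⟩

/-- bulk graph of the piece `n` -/
def bk2 (G : SimpleGraph V) (X : HD V) (P : Pcs V M) (n : Fin M) : SimpleGraph (Ts P n) :=
  (bulk2 G X P).comap (fun v => v.1)

/-- prescribed edges inside the piece `n` -/
def tk2 (G : SimpleGraph V) (X : HD V) (P : Pcs V M) (n : Fin M) : SimpleGraph (Ts P n) :=
  (thin2 G X P).comap (fun v => v.1)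

variable [Fintype V]

/-- colours of the prescribed edges at `v` -/
noncomputable def Fc2 (G : SimpleGraph V) (X : HD V) (P : Pcs V M) (t : V → V → ℕ) (v : V) :
    Finset ℕ := (nb (thin2 G X P) v).image (t v)

/-- the same on the piece `n` -/
noncomputable def Fn2 (G : SimpleGraph V) (X : HD V) (P : Pcs V M) (t : V → V → ℕ) (n : Fin M) :
    Ts P n → Finset ℕ := fun v => Fc2 G X P t v.1

/-- the members of the piece `n` with prescribed own colour -/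
noncomputable def oT (X : HD V) (P : Pcs V M) (n : Fin M) : Finset (Ts P n) :=
  univ.filter (fun v => v.1 ∈ X.VH)

/-- colours at the vertices of the piece `n`, with the prescribed own colours -/
noncomputable def Fo2 (G : SimpleGraph V) (X : HD V) (P : Pcs V M) (t : V → V → ℕ) (n : Fin M) :
    Ts P n → Finset ℕ := Fo (oT X P n) (fun v => X.c0 v.1) (Fn2 G X P t n)

/-- the special colours `b ∈ Ss` which are names almost everywhere on the side `β` -/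
noncomputable def Bkn (X : HD V) (P : Pcs V M) (ζ : ℝ) (d : ℕ) (Ss : Finset ℕ) (n : Fin M)
    (β : Bool) : Finset ℕ :=
  Ss.filter (fun b => (((sV P n β).filter (fun v => b ∉ X.nm v)).card : ℝ) < ζ / 4 * d)

/-- Properties of the precoloured matching. `k` bounds the numbers of vertices in `VH`, `S0`. -/
structure HP (k d : ℕ) (G : SimpleGraph V) (X : HD V) : Prop where
  VHk : X.VH.card ≤ k
  S0k : X.S0.card ≤ k
  dj : Disjoint X.VH X.S0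
  HG : ∀ v w, X.H.Adj v w → G.Adj v w
  Hm : ∀ v w w', X.H.Adj v w → X.H.Adj v w' → w = w'
  HV : ∀ v ∈ X.VH, ∃ w, X.H.Adj v w
  HS : ∀ v w, X.H.Adj v w → v ∈ X.VH ∨ v ∈ X.S0
  HH : ∀ v w, X.H.Adj v w → v ∈ X.VH ∨ w ∈ X.VH
  c0l : ∀ v ∈ X.VH, X.c0 v < d + 2
  h0l : ∀ v w, X.H.Adj v w → X.h0 v < d + 2 ∧ X.h0 v = X.h0 w
  ch : ∀ v ∈ X.VH, X.c0 v ≠ X.h0 v
  cc : ∀ v ∈ X.VH, ∀ w ∈ X.VH, X.H.Adj v w → X.c0 v ≠ X.c0 w ∧ X.p0 v = X.c0 w
  VV : ∀ v ∈ X.VH, ∀ w, w ∈ X.VH ∨ w ∈ X.S0 → G.Adj v w → X.H.Adj v w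
  nml : ∀ w, X.nm w ⊆ range (d + 2)
  nmk : ∀ w, (X.nm w).card ≤ k
  nm2 : (univ.filter (fun w => 2 < (X.nm w).card)).card ≤ k
  nm0 : ∀ w, w ∈ X.VH ∨ w ∈ X.S0 → X.nm w = ∅
  nmV : ∀ v ∈ X.VH, ∀ w, G.Adj v w → w ∉ X.VH → w ∉ X.S0 → X.c0 v ∈ X.nm w
  nmF : ∀ w, ∀ o ⊆ X.VH, (X.nm w \ o.image X.c0).card ≤
    ((nb G w ∩ (X.VH ∪ X.S0)) \ o).card
  ht : (univ.filter (fun w => ∃ v ∈ X.VH, G.Adj v w ∧ X.h0 v ∈ X.nm w)).card ≤ k
  real : ∀ v ∈ X.VH, d ≤ 5 * ((nb G v).filter (fun w => w ∉ X.VH ∧ w ∉ X.S0 ∧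
    X.nm w ⊆ {X.c0 v, X.p0 v} ∧ ∀ v' ∈ X.VH, G.Adj v' w → v' = v ∨ X.H.Adj v v')).card
  ne2 : ∀ z ∈ X.S0, ∀ w, X.ne z w ⊆ range (d + 2) ∧ (X.ne z w).card ≤ 2
  neV : ∀ z ∈ X.S0, ∀ w, w ∈ X.VH ∨ w ∈ X.S0 → X.ne z w = ∅
  gd0 : ∀ z ∈ X.S0, Disjoint (X.Gd z false) (X.Gd z true)
  gd1 : ∀ z ∈ X.S0, ∀ i, (X.Gd z i).card ≤ d + 1
  gd2 : ∀ z ∈ X.S0, ∀ i, ∀ x ∈ X.Gd z i, ∀ y, G.Adj x y → y ∈ X.Gd z i ∨ y = z
  gd3 : ∀ z ∈ X.S0, ∀ i, d ≤ 8 * (nb G z ∩ X.Gd z i).card + 16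
  gd4 : ∀ z ∈ X.S0, ∀ i, ∀ x ∈ X.Gd z i, x ∉ X.VH ∧ x ∉ X.S0 ∧ X.nm x = ∅ ∧ X.ne z x = ∅

/-- A total colouring which respects the matching. -/
structure TotH (d : ℕ) (G : SimpleGraph V) (X : HD V) (c : V → ℕ) (t : V → V → ℕ) : Prop where
  clt : ∀ v, c v < d + 2
  cc : ∀ v w, v ∉ X.VH → w ∉ X.VH → G.Adj v w → c v ≠ c w
  cV : ∀ v ∈ X.VH, c v = X.c0 v
  nm : ∀ v, v ∉ X.VH → c v ∉ X.nm v
  sym : ∀ v w, t v w = t w v
  tlt : ∀ v w, G.Adj v w → t v w < d + 2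
  inj : ∀ v, Set.InjOn (t v) (nb G v : Set V)
  tc : ∀ v w, G.Adj v w → t v w ≠ c v
  th : ∀ v w, X.H.Adj v w → t v w = X.h0 v
  ne : ∀ z ∈ X.S0, ∀ w, G.Adj z w → t z w ∉ X.ne z w

/-- bound for the signed numbers in phase 2 -/
def KK (k : ℕ) : ℕ := 100 * (k + 1)

/-- Result of PRE2. `Ss`: the special colours (names and colours of the edges of `VH`, heavy names),
`Sp`: the own colours of `V0 ∖ VH`. `EX`: there are partners for the vertices which are missed in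
rounds of blocked colours. `kp`: parity in near-cliques. -/
structure PreP2 (ε ζ : ℝ) (k : ℕ) (G : SimpleGraph V) (d : ℕ) (P : Pcs V M) (A : Pal) (X : HD V)
    (Ss : Finset ℕ) (t : V → V → ℕ) (c : V → ℕ) (Sp : Finset ℕ) : Prop where
  sym : ∀ v w, t v w = t w v
  lt : ∀ v w, (thin2 G X P).Adj v w → t v w < d + 2
  inj : ∀ v, Set.InjOn (t v) (nb (thin2 G X P) v : Set V)
  th : ∀ v w, X.H.Adj v w → t v w = X.h0 v
  own : Sp = (P.V0 \ X.VH).image c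
  SC : Sp ⊆ A.C0 d
  SS : Disjoint Sp Ss
  oin : Set.InjOn c ((P.V0 \ X.VH : Finset V) : Set V)
  onb : ∀ z ∈ P.V0, z ∉ X.VH → c z ∉ Fc2 G X P t z ∧ c z ∉ X.nm z
  lig : ∀ z ∈ P.V0, z ∉ X.VH → ((univ.filter (fun v => c z ∈ X.nm v)).card : ℝ) ≤ ζ / 16 * d
  cVH : ∀ v ∈ X.VH, X.c0 v ∉ Fc2 G X P t v
  ne : ∀ z ∈ X.S0, ∀ w, G.Adj z w → t z w ∉ X.ne z w
  rN : ∀ v, v ∉ P.V0 → P.ty (P.pc v) = Ty.N ∨ P.ty (P.pc v) = Ty.B →
    Disjoint (Fc2 G X P t v) (A.Q (P.pt v))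
  rK : ∀ v, v ∉ P.V0 → P.ty (P.pc v) = Ty.K → Disjoint (Fc2 G X P t v) (A.C (P.th v))
  load : ∀ n b, ((us (Fn2 G X P t n) b).card : ℝ) ≤ ε * ζ * d
  sPQ : ∀ n, P.ty n = Ty.N ∨ P.ty n = Ty.B → ∀ i, ∀ b ∈ A.Q (!i) ∪ A.P2,
    |sgp (Fn2 G X P t n) (sdn P n) (ptn P n) i b| ≤ KK k
  gs : ∀ n, P.ty n = Ty.B → ∀ b ∈ P1 d A.Q A.P2, |sg (Fo2 G X P t n) (sdn P n) b| ≤ KK k
  sm1 : ∀ n, P.ty n = Ty.B →
    |((∑ b ∈ P1 d A.Q A.P2, sg (Fo2 G X P t n) (sdn P n) b : ℤ) : ℝ)| ≤ ε * d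
  sm2 : ∀ n, P.ty n = Ty.N ∨ P.ty n = Ty.B → ∀ i,
    |((∑ b ∈ A.P2, sgp (Fn2 G X P t n) (sdn P n) (ptn P n) i b : ℤ) : ℝ)| ≤ ε * d
  smQ : ∀ n, P.ty n = Ty.N ∨ P.ty n = Ty.B → ∀ i,
    |((∑ b ∈ A.Q (!i), sgp (Fn2 G X P t n) (sdn P n) (ptn P n) i b : ℤ) : ℝ)| ≤ ε * d
  tot : ∀ n, P.ty n = Ty.B → ∀ β,
    ((∑ b ∈ P1 d A.Q A.P2, need (Fo2 G X P t n) (sdn P n) β b : ℕ) : ℝ) ≤ (3 / 5 + ε) * d
  oY : ∀ n, P.ty n = Ty.B → ∀ j, (A.Q j).card ≤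
    5 * ((A.Q j).filter (fun b => 0 ≤ sgp (Fn2 G X P t n) (sdn P n) (ptn P n) (!j) b)).card
  adj : ∀ z ∈ P.V0, z ∉ X.VH → ∀ n β, P.rg z = some (n, β) →
    need (Fo2 G X P t n) (sdn P n) β (c z) = 0
  EX : ∀ n, P.ty n = Ty.B → ∀ β,
    ∑ b ∈ Bkn X P ζ d Ss n β, need (Fo2 G X P t n) (sdn P n) β b ≤
      (oT X P n ∩ sid (sdn P n) (!β)).card +
        ∑ b ∈ P1 d A.Q A.P2 \ Bkn X P ζ d Ss n (!β), need (Fo2 G X P t n) (sdn P n) (!β) b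
  kp : ∀ n, P.ty n = Ty.K → (∀ v w, v ≠ w → (bk2 G X P n).Adj v w) → oT X P n = ∅ →
    2 ≤ (Ss.filter (fun b =>
      (((pV P n).filter (fun v => b ∉ X.nm v)).card : ℝ) < ζ / 4 * d)).card →
    (∃ b, b < d + 2 ∧ b ∉ Ss ∧
      Odd (Fintype.card (Ts P n) - (us (Fn2 G X P t n) b).card)) ∨
    ∀ b ∈ Ss, Even (Fintype.card (Ts P n) - (us (Fn2 G X P t n) b).card)

end defs

end Pool.Agent.Work.MP_db9399_da
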