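import Pool.Agent.Work.MP_db9399_ot.Interface

/-!
# MP_db9399, DENSE-ALL: the three local theorems (owner helper26)

After all edges outside the bulk graphs of the pieces are coloured (PRE), every piece is finished
alone. `V` is the vertex set of ONE piece, `G` its bulk graph, `F v` the colours `< d + 2` of the
prescribed edges at `v` (type N: together with the own colour of `v`), `A v ⊇ F v` the colours which
`v` must not get as own colour (types B and K). See note 1375 / 1378 on MP_db9399_co.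
-/

set_option autoImplicit false

namespace Pool.Agent.Work.MP_db9399_da

open Finset Classical
open Pool.Agent.Work.MP_db9399_all (nb)
open Pool.Agent.Work.MP_db9399_nc (nn)
open Pool.Agent.Work.MP_db9399_lt (us)

universe u

section defs
variable {V : Type u} [Fintype V]

/-- the side `β` -/
noncomputable def sid (sd : V → Bool) (β : Bool) : Finset V := univ.filter (fun v => sd v = β)

/-- the part `i` -/
noncomputable def prt (pt : V → Bool) (i : Bool) : Finset V := univ.filter (fun v => pt v = i)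

/-- the vertices of the side `β` in the part `i` -/
noncomputable def qtr (sd pt : V → Bool) (β i : Bool) : Finset V :=
  univ.filter (fun v => sd v = β ∧ pt v = i)

/-- signed number of the vertices where `b` is used: side `false` minus side `true` -/
noncomputable def sg (F : V → Finset ℕ) (sd : V → Bool) (b : ℕ) : ℤ :=
  ((sid sd false ∩ us F b).card : ℤ) - ((sid sd true ∩ us F b).card : ℤ)

/-- the same inside the part `i` -/
noncomputable def sgp (F : V → Finset ℕ) (sd pt : V → Bool) (i : Bool) (b : ℕ) : ℤ :=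
  ((qtr sd pt false i ∩ us F b).card : ℤ) - ((qtr sd pt true i ∩ us F b).card : ℤ)

/-- number of vertices of the side `β` which must be missed in the round `b` -/
noncomputable def need (F : V → Finset ℕ) (sd : V → Bool) (β : Bool) (b : ℕ) : ℕ :=
  (sid sd (!β) ∩ us F b).card - (sid sd β ∩ us F b).card

/-- the colours `P'` of the first rounds -/
def P1 (d : ℕ) (Q : Bool → Finset ℕ) (P2 : Finset ℕ) : Finset ℕ :=
  range (d + 2) \ (Q false ∪ Q true ∪ P2)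

/-- Common input of LOCN and LOCB. `Q i` is the last palette of the part `i`, `P2` is `P''`. -/
structure LI (G : SimpleGraph V) (d : ℕ) (C ρ π κ θ : ℝ) (sd pt : V → Bool)
    (Q : Bool → Finset ℕ) (P2 : Finset ℕ) (F : V → Finset ℕ) : Prop where
  VC : (Fintype.card V : ℝ) ≤ C * d
  Flt : ∀ v, ∀ b ∈ F v, b < d + 2
  Fx : ∀ v, ((F v).card : ℝ) ≤ θ * d
  load : ∀ b, ((us F b).card : ℝ) ≤ θ * d
  Qlt : ∀ i, Q i ⊆ range (d + 2)
  Plt : P2 ⊆ range (d + 2)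
  QQ : Disjoint (Q false) (Q true)
  QP : ∀ i, Disjoint (Q i) P2
  Qc : ∀ i, κ * d ≤ ((Q i).card : ℝ) ∧ ((Q i).card : ℝ) ≤ 2 * κ * d
  Pc : π * d ≤ (P2.card : ℝ) ∧ (P2.card : ℝ) ≤ 2 * π * d
  FQ : ∀ v, Disjoint (F v) (Q (pt v))
  sgQ : ∀ i, ∀ b ∈ Q (!i) ∪ P2, |sgp F sd pt i b| ≤ 8
  sm2 : ∀ i, |((∑ b ∈ P2, sgp F sd pt i b : ℤ) : ℝ)| ≤ θ * d
  smQ : ∀ i, |((∑ b ∈ Q (!i), sgp F sd pt i b : ℤ) : ℝ)| ≤ θ * d
  cutG : ∀ S : Finset V, ρ * S.card * (univ \ S).card ≤ ∑ v ∈ S, ((nb G v \ S).card : ℝ)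
  cutP : ∀ i, ∀ S ⊆ prt pt i, ρ * S.card * (prt pt i \ S).card ≤
    ∑ v ∈ S, (((nb G v \ S) ∩ qtr sd pt (!(sd v)) i).card : ℝ)

/-- additional input of LOCN -/
structure LN (G : SimpleGraph V) (d : ℕ) (g ρ θ : ℝ) (sd pt : V → Bool) (F : V → Finset ℕ) :
    Prop where
  Vl : (1 + g) * d ≤ (Fintype.card V : ℝ)
  deg : ∀ v, (nb G v).card + (F v).card = d + 1
  dgp : ∀ v β i, |((nb G v ∩ qtr sd pt β i).card : ℝ) - d / 4| ≤ θ * d
  siz : ∀ β i, 4 * (qtr sd pt β i).card = Fintype.card V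
  nbi : ∀ S : Finset V, ρ * (d : ℝ) ^ 2 ≤
    ∑ v ∈ S, ((nb G v ∩ S).card : ℝ) + ∑ v ∈ univ \ S, ((nb G v \ S).card : ℝ)

/-- Additional input of LOCB. `Th` are the thin edges inside the piece, `Sp` the own colours of the
vertices of `V_0` (`z`: number of vertices of the side where misses occur where such a colour is
allowed), `A v ⊇ F v` the forbidden own colours. A vertex missed in a round of `P1` gets the
missed colour as own colour (type T). In the rounds of `P2` and `Q (!i)` the parts are treated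
separately; there missed vertices of the side `false` have type T, missed vertices of the side `true`
keep their own colour in `Q i` (type P of `CRF`). Own colours of the side `true` in the part `j` avoid
the `b ∈ Q j` for which vertices of the side `false` of the other part are missed (`oY`). Every part
has as many misses in the side `false` as in the side `true` (count the edges of the last graph
`R_i`), so the vertices of type P have partners of type T. `Sf`: further colours of `P1` which may be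
forbidden everywhere (phase 2, names of `H`; empty in phase 1): vertices missed in such a round keep
their own colour (type P), `rich` gives the partners. -/
structure LB (G Th : SimpleGraph V) (d z : ℕ) (θ : ℝ) (sd pt : V → Bool) (Q : Bool → Finset ℕ)
    (P2 : Finset ℕ) (F A : V → Finset ℕ) (Sp Sf : Finset ℕ) : Prop where
  bip : ∀ v w, G.Adj v w → sd v ≠ sd w
  deg : ∀ v, (nb G v).card + (F v).card = d
  dgp : ∀ v i, |((nb G v ∩ prt pt i).card : ℝ) - d / 2| ≤ θ * d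
  eqs : ∀ i, (qtr sd pt false i).card = (qtr sd pt true i).card
  siz : ∀ i, (qtr sd pt false i).card ≤ (qtr sd pt false (!i)).card + 1
  FA : ∀ v, F v ⊆ A v
  Ax : ∀ v, ((A v).card : ℝ) ≤ θ * d
  Tx : ∀ v, ((nb Th v).card : ℝ) ≤ θ * d
  SP : Sp ⊆ P1 d Q P2
  Sc : (Sp.card : ℝ) ≤ θ * d
  SfP : Sf ⊆ P1 d Q P2
  Sfc : (Sf.card : ℝ) ≤ θ * d
  Sd : Disjoint Sp Sf
  rich : (∀ b ∈ Sf, sg F sd b = 0) ∨
    ∀ β, 80 * (Sf.card + 1) ≤ ∑ b ∈ P1 d Q P2 \ Sf, need F sd β b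
  gA : ∀ b, b < d + 2 → b ∉ Sp → b ∉ Sf → ((us A b).card : ℝ) ≤ θ * d
  Ze : ∀ b ∈ Sp, ∀ β, 0 < need F sd β b → z ≤ (sid sd β \ us A b).card
  Zz : 100 * (Sp.card + 1) ≤ z
  Zt : ∀ b ∈ Sp, ∀ v, b ∉ A v → 100 * (nb Th v).card ≤ z
  gs : ∀ b ∈ P1 d Q P2, |sg F sd b| ≤ 8
  sm1 : |((∑ b ∈ P1 d Q P2, sg F sd b : ℤ) : ℝ)| ≤ θ * d
  tot : ∀ β, ((∑ b ∈ P1 d Q P2, need F sd β b : ℕ) : ℝ) ≤ 3 / 5 * d
  oY : ∀ j, (Q j).card ≤ 4 * ((Q j).filter (fun b => 0 ≤ sgp F sd pt (!j) b)).card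

/-- Input of LOCK (compare `MP_db9399_ot.LTZH`). `Z` are members with many leaving edges, `o ⊆ Z`
(ends of `H`) have prescribed own colours `c0`. `Z0` are the exceptional colours (own colours of
`V_0`, outside all `C i`), still allowed at `z` vertices; `R` (at most two colours) are colours which
are forbidden at almost all vertices, because of neighbours which are ends of `H`. -/
structure LK (G : SimpleGraph V) (d x y h s z : ℕ) (F A : V → Finset ℕ) (p : V → Fin 3)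
    (a : V → Bool) (C : Fin 3 → Finset ℕ) (Z o : Finset V) (c0 : V → ℕ) (Z0 R : Finset ℕ) :
    Prop where
  x1 : 1 ≤ x
  xd : 10 ^ 27 * x ≤ d
  yh : 100 * (y + 4 * x) ≤ h
  hd : 10 ^ 12 * h ≤ d
  dh : d ≤ 10 ^ 13 * h
  Zx : Z.card ≤ x
  deg : ∀ v, (nb G v).card + (F v).card = d
  inn : ∀ v, (nn G univ v).card ≤ x
  FA : ∀ v, v ∉ o → F v ⊆ A v
  Ax : ∀ v, v ∉ o → (A v).card + 1 ≤ x
  Fo : ∀ v ∈ o, (F v).card + 1 ≤ x
  Flt : ∀ v, ∀ b ∈ F v, b < d + 2
  load : ∀ b, (us F b).card + 3 ≤ y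
  oZ : o ⊆ Z
  o2 : o.card ≤ 2
  oc : ∀ v ∈ o, c0 v < d + 2 ∧ c0 v ∉ F v
  oi : Set.InjOn c0 (o : Set V)
  oR : o.Nonempty → R = ∅
  gA : ∀ b, b < d + 2 → b ∉ Z0 → b ∉ R → (us A b \ o).card ≤ x
  Ze : ∀ b ∈ Z0, z ≤ (univ.filter (fun v => b ∉ A v ∧ v ∉ o)).card
  ZC : ∀ i, Disjoint Z0 (C i)
  Zz : 8 * Z0.card + 20 ≤ z
  Zc : Z0.card ≤ x
  zV : 10 * z ≤ d
  R2 : R.card ≤ 2
  Rlt : ∀ b ∈ R, b < d + 2
  RF : (univ.filter (fun v => (F v).card < R.card)).card ≤ 4 * z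
  Rp : R.card ≤ 1 ∨ (∃ v w, v ≠ w ∧ ¬ G.Adj v w) ∨
    (∃ b ∈ R, Even (Fintype.card V - (us F b).card)) ∨
    ∃ b, b < d + 2 ∧ b ∉ R ∧ Odd (Fintype.card V - (us F b).card)
  cs : ∀ i l, (MP_db9399_lt.cell p a i l).card ≤ s ∧ s ≤ (MP_db9399_lt.cell p a i l).card + x
  Clt : ∀ i, ∀ b ∈ C i, b < d + 2
  Cdis : ∀ i j, i ≠ j → Disjoint (C i) (C j)
  Ccard : ∀ i, (C i).card + h = 2 * s
  CF : ∀ v, v ∉ Z → Disjoint (F v) (C (p v))

/-- `t` colours the edges of `G` with colours `< d + 2` outside `F` -/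
def PEF (G : SimpleGraph V) (d : ℕ) (F : V → Finset ℕ) (t : V → V → ℕ) : Prop :=
  (∀ v w, t v w = t w v) ∧ (∀ v w, G.Adj v w → t v w < d + 2 ∧ t v w ∉ F v) ∧
    ∀ v, Set.InjOn (t v) (nb G v : Set V)

/-- `c` are own colours outside `A`, proper on `G` and `Th`, every colour at most `M` times -/
def OWN (G Th : SimpleGraph V) (d M : ℕ) (A : V → Finset ℕ) (c : V → ℕ) : Prop :=
  (∀ v, c v < d + 2 ∧ c v ∉ A v) ∧ (∀ v w, G.Adj v w → c v ≠ c w) ∧
    (∀ v w, Th.Adj v w → c v ≠ c w) ∧ ∀ b, (univ.filter (fun v => c v = b)).card ≤ M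

end defs

/-- LOCN: a piece of type N (own colours included in `F`). -/
def Stmt_LOCN : Prop :=
  ∀ C g ρ : ℝ, 1 ≤ C → 0 < g → 0 < ρ → ∃ π0 : ℝ, 0 < π0 ∧ ∀ π : ℝ, 0 < π → π ≤ π0 →
    ∃ κ0 : ℝ, 0 < κ0 ∧ ∀ κ : ℝ, 0 < κ → κ ≤ κ0 → ∃ (θ : ℝ) (d0 : ℕ), 0 < θ ∧
    ∀ {V : Type u} [Fintype V] (G : SimpleGraph V) (d : ℕ) (sd pt : V → Bool)
      (Q : Bool → Finset ℕ) (P2 : Finset ℕ) (F : V → Finset ℕ), d0 ≤ d →
      LI G d C ρ π κ θ sd pt Q P2 F → LN G d g ρ θ sd pt F → ∃ t : V → V → ℕ, PEF G d F t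

/-- LOCB: a piece of type B. -/
def Stmt_LOCB : Prop :=
  ∀ C ρ : ℝ, 1 ≤ C → 0 < ρ → ∃ π0 : ℝ, 0 < π0 ∧ ∀ π : ℝ, 0 < π → π ≤ π0 →
    ∃ κ0 : ℝ, 0 < κ0 ∧ ∀ κ : ℝ, 0 < κ → κ ≤ κ0 → ∃ (M : ℕ) (θ : ℝ) (d0 : ℕ), 0 < θ ∧
    ∀ {V : Type u} [Fintype V] (G Th : SimpleGraph V) (d z : ℕ) (sd pt : V → Bool)
      (Q : Bool → Finset ℕ) (P2 : Finset ℕ) (F A : V → Finset ℕ) (Sp Sf : Finset ℕ), d0 ≤ d →
      LI G d C ρ π κ θ sd pt Q P2 F → LB G Th d z θ sd pt Q P2 F A Sp Sf →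
      ∃ (c : V → ℕ) (t : V → V → ℕ), OWN G Th d M A c ∧
        PEF G d (fun v => insert (c v) (F v)) t

/-- LOCK: a piece of type K (from `MP_db9399_ot.Stmt_LTZ` and Hall). -/
def Stmt_LOCK : Prop :=
  ∀ {V : Type u} [Fintype V] (G : SimpleGraph V) (d x y h s z : ℕ) (F A : V → Finset ℕ)
    (p : V → Fin 3) (a : V → Bool) (C : Fin 3 → Finset ℕ) (Z o : Finset V) (c0 : V → ℕ)
    (Z0 R : Finset ℕ), LK G d x y h s z F A p a C Z o c0 Z0 R →
    ∃ (c : V → ℕ) (t : V → V → ℕ), (∀ v, c v < d + 2) ∧ (∀ v, v ∉ o → c v ∉ A v) ∧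
      (∀ v ∈ o, c v = c0 v) ∧ (∀ v w, G.Adj v w → c v ≠ c w) ∧
      (∀ v ∈ o, ∀ w, w ≠ v → c w ≠ c v) ∧
      (∀ b, (univ.filter (fun v => c v = b)).card ≤ 2) ∧
      PEF G d (fun v => insert (c v) (F v)) t

/-- CRF (helper46's LEMMA CR and Mendelsohn-Dulmage): the finish. `R` bipartite, palette `Qi`, own
colours `c`; the vertices outside `T` have their own colour in `Qi`; `T`, `P1` have one more edge;
every vertex of `P1` has a partner in `T` (matching `N0` of `R`). -/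
def Stmt_CRF : Prop :=
  ∀ {V : Type u} [Fintype V] (R N0 : SimpleGraph V) (sd : V → Bool) (Qi : Finset ℕ)
    (c : V → ℕ) (T P : Finset V), (∀ v w, R.Adj v w → sd v ≠ sd w) → Disjoint T P →
    (∀ v, v ∉ T → v ∉ P → (nb R v).card + 2 ≤ Qi.card) →
    (∀ v ∈ T ∪ P, (nb R v).card + 1 ≤ Qi.card) → (∀ v ∈ T, c v ∉ Qi) →
    (∀ v w, R.Adj v w → c v ≠ c w) → N0 ≤ R → MP_db9399_dn.IsMat N0 →
    (∀ v ∈ P, ∃ w ∈ T, N0.Adj v w) →
    ∃ t : V → V → ℕ, (∀ v w, t v w = t w v) ∧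
      (∀ v w, R.Adj v w → t v w ∈ Qi ∧ t v w ≠ c v) ∧ ∀ v, Set.InjOn (t v) (nb R v : Set V)

end Pool.Agent.Work.MP_db9399_da
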