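import Pool.Agent.Work.MP_db9399_da.Frame
import Pool.Agent.Work.MP_db9399_da_helper72.Stm

/-!
# MP_db9399, DENSE-ALL: PARTS (owner helper26)

Random labels inside the nodes (block model BM, LBA, LBB, LAB3), the cut condition of the parts
(DCUT, CPB, CPN, from helper72's PCUT), and PARTS.
-/

set_option autoImplicit false

namespace Pool.Agent.Work.MP_db9399_da

open Finset Classical
open Pool.Agent.Work.MP_db9399_all (nb pr)

universe u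

section defs
variable {V : Type u} [Fintype V] {J : ℕ}

/-- the node `j` -/
noncomputable def nodeS (nd : V → Fin J) (j : Fin J) : Finset V := univ.filter (fun v => nd v = j)

/-- the class `(j, i)` -/
noncomputable def clS (nd : V → Fin J) (lab : V → ℕ) (j : Fin J) (i : ℕ) : Finset V :=
  univ.filter (fun v => nd v = j ∧ lab v = i)

/-- the labels given by the shifts `ω` of the blocks; `Fx`: vertices with fixed labels -/
noncomputable def lb (nd : V → Fin J) (r : Fin J → ℕ) (blk : V → V) (pos : V → ℕ)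
    (Fx : V → Prop) (ω : V → Fin 60) (v : V) : ℕ :=
  if Fx v then pos v else (pos v + (ω (blk v) : ℕ)) % r (nd v)

/-- Block model: every node `j` is cut into blocks of `r j` vertices (positions `0 .. r j - 1`) and
at most one smaller block with fixed labels `0 .. s - 1`; few `T`-edges inside blocks; whatever the
shifts, the `w`-sums of the classes of a node are almost equal. -/
structure BM (nd : V → Fin J) (r : Fin J → ℕ) (T : SimpleGraph V) (w : V → ℝ) (W : ℝ)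
    (blk : V → V) (pos : V → ℕ) (Fx : V → Prop) : Prop where
  nb : ∀ v v', blk v = blk v' → nd v = nd v'
  pl : ∀ v, pos v < r (nd v)
  inj : ∀ v v', blk v = blk v' → pos v = pos v' → v = v'
  full : ∀ v, ¬ Fx v → ∀ i < r (nd v), ∃ v', blk v' = blk v ∧ pos v' = i
  fxb : ∀ v v', blk v = blk v' → (Fx v ↔ Fx v')
  fx1 : ∀ v v', Fx v → Fx v' → nd v = nd v' → blk v = blk v'
  fxp : ∀ v, Fx v → ∀ i < pos v, ∃ v', blk v' = blk v ∧ pos v' = i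
  fxs : ∀ v, Fx v → ∃ i < r (nd v), ∀ v', blk v' = blk v → pos v' ≠ i
  prs : ∀ j, (((univ : Finset (V × V)).filter (fun p => nd p.1 = j ∧ nd p.2 = j ∧
    blk p.1 = blk p.2 ∧ T.Adj p.1 p.2)).card : ℝ) ≤
      (eb T (nodeS nd j) (nodeS nd j) : ℝ) / 10 ^ 5 + 10 ^ 12
  sw : ∀ (ω : V → Fin 60) j, ∀ i < r j, ∀ i' < r j,
    |∑ v ∈ clS nd (lb nd r blk pos Fx ω) j i, w v -
      ∑ v ∈ clS nd (lb nd r blk pos Fx ω) j i', w v| ≤ 10 ^ 6 * W

/-- Properties of the labels. `I`: sets which are split in the right proportion up to `δ d`; `T`: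
graph of small degree, edge numbers between nodes with at least `L` edges are right up to
`1 / 1000`; `V0`, `S z`: sets which may be small, total size of the badly split ones. -/
structure LabQ (nd : V → Fin J) (r : Fin J → ℕ) (T : SimpleGraph V) (d : ℕ) (δ L K : ℝ)
    (I : Finset (Finset V)) (V0 : Finset V) (S : V → Finset V) (lab : V → ℕ) : Prop where
  lt : ∀ v, lab v < r (nd v)
  siz : ∀ j, ∀ i < r j, (clS nd lab j i).card = ((nodeS nd j).card + (r j - 1 - i)) / r j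
  spl : ∀ A ∈ I, ∀ j, ∀ i < r j,
    |((A ∩ clS nd lab j i).card : ℝ) - (A ∩ nodeS nd j).card / r j| ≤ δ * d
  edg : ∀ j j', L ≤ (eb T (nodeS nd j) (nodeS nd j') : ℝ) → ∀ i < r j, ∀ i' < r j',
    |(eb T (clS nd lab j i) (clS nd lab j' i') : ℝ) -
      eb T (nodeS nd j) (nodeS nd j') / (r j * r j')| ≤
        (eb T (nodeS nd j) (nodeS nd j') : ℝ) / 1000
  bad : ∑ z ∈ V0, ∑ j, (if ∃ i < r j, ((S z ∩ nodeS nd j).card : ℝ) / 1000 <
      |((S z ∩ clS nd lab j i).card : ℝ) - (S z ∩ nodeS nd j).card / r j|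
      then ((S z ∩ nodeS nd j).card : ℝ) else 0) ≤ K * V0.card

end defs

/-- LBA: the block model exists. -/
def Stmt_LBA : Prop :=
  ∀ {V : Type u} [Fintype V] {J : ℕ} (nd : V → Fin J) (r : Fin J → ℕ) (T : SimpleGraph V)
    (w : V → ℝ) (W : ℝ), (∀ j, 1 ≤ r j ∧ r j ≤ 6) → 0 ≤ W → (∀ v, 0 ≤ w v ∧ w v ≤ W) →
    ∃ (blk : V → V) (pos : V → ℕ) (Fx : V → Prop), BM nd r T w W blk pos Fx

/-- LBH (from `MP_db9399_qr.PARTAux.chern`): Chernoff bound for one set. -/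
def Stmt_LBH : Prop :=
  ∀ {V : Type u} [Fintype V] {J : ℕ} (nd : V → Fin J) (r : Fin J → ℕ) (T : SimpleGraph V)
    (w : V → ℝ) (W : ℝ) (blk : V → V) (pos : V → ℕ) (Fx : V → Prop) (A : Finset V) (j : Fin J)
    (i : ℕ) (x : ℝ), (∀ j, 1 ≤ r j ∧ r j ≤ 6) → BM nd r T w W blk pos Fx → i < r j → 0 ≤ x →
    (A ∩ nodeS nd j).Nonempty →
    pr (fun ω : V → Fin 60 => x + 6 < |((A ∩ clS nd (lb nd r blk pos Fx ω) j i).card : ℝ) -
      (A ∩ nodeS nd j).card / r j|) ≤ 2 * Real.exp (-(x ^ 2 / (4 * (A ∩ nodeS nd j).card)))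

/-- LBV: Chebyshev for the edges of `T` between two classes. -/
def Stmt_LBV : Prop :=
  ∀ {V : Type u} [Fintype V] {J : ℕ} (nd : V → Fin J) (r : Fin J → ℕ) (T : SimpleGraph V)
    (w : V → ℝ) (W : ℝ) (blk : V → V) (pos : V → ℕ) (Fx : V → Prop) (j j' : Fin J)
    (i i' : ℕ) (D E : ℝ), (∀ j, 1 ≤ r j ∧ r j ≤ 6) → BM nd r T w W blk pos Fx → i < r j →
    i' < r j' → 1 ≤ D → (∀ v, ((nb T v).card : ℝ) ≤ D) →
    E = (eb T (nodeS nd j) (nodeS nd j') : ℝ) → 10 ^ 16 ≤ E → 10 ^ 8 * D ≤ E →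
    pr (fun ω : V → Fin 60 => E / 1000 < |(eb T (clS nd (lb nd r blk pos Fx ω) j i)
      (clS nd (lb nd r blk pos Fx ω) j' i') : ℝ) - E / (r j * r j')|) ≤ 10 ^ 12 * D / E

/-- LBB (from LBH, LBV): random shifts. -/
def Stmt_LBB : Prop :=
  ∀ J : ℕ, ∃ K : ℝ, 0 < K ∧ ∀ (C δ ζ : ℝ) (k : ℕ), 1 ≤ C → 0 < δ → 0 < ζ → ∃ d0 : ℕ,
    ∀ {V : Type u} [Fintype V] (d : ℕ) (nd : V → Fin J) (r : Fin J → ℕ) (T : SimpleGraph V)
      (w : V → ℝ) (W : ℝ) (blk : V → V) (pos : V → ℕ) (Fx : V → Prop) (I : Finset (Finset V))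
      (V0 : Finset V) (S : V → Finset V), d0 ≤ d → (Fintype.card V : ℝ) ≤ C * d →
      (∀ j, 1 ≤ r j ∧ r j ≤ 6) → BM nd r T w W blk pos Fx → I.card ≤ d ^ k →
      (∀ v, ((nb T v).card : ℝ) ≤ ζ * d) →
      ∃ ω : V → Fin 60, LabQ nd r T d δ (K * ζ * d) K I V0 S (lb nd r blk pos Fx ω)

/-- LAB3 (from LBA, LBB). -/
def Stmt_LAB3 : Prop :=
  ∀ J : ℕ, ∃ K : ℝ, 0 < K ∧ ∀ (C δ ζ : ℝ) (k : ℕ), 1 ≤ C → 0 < δ → 0 < ζ → ∃ d0 : ℕ,
    ∀ {V : Type u} [Fintype V] (d : ℕ) (nd : V → Fin J) (r : Fin J → ℕ) (T : SimpleGraph V)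
      (w : V → ℝ) (W : ℝ) (I : Finset (Finset V)) (V0 : Finset V) (S : V → Finset V), d0 ≤ d →
      (Fintype.card V : ℝ) ≤ C * d → (∀ j, 1 ≤ r j ∧ r j ≤ 6) → 0 ≤ W →
      (∀ v, 0 ≤ w v ∧ w v ≤ W) →
      I.card ≤ d ^ k → (∀ v, ((nb T v).card : ℝ) ≤ ζ * d) →
      ∃ lab : V → ℕ, LabQ nd r T d δ (K * ζ * d) K I V0 S lab ∧
        ∀ j, ∀ i < r j, ∀ i' < r j,
          |∑ v ∈ clS nd lab j i, w v - ∑ v ∈ clS nd lab j i', w v| ≤ 10 ^ 6 * W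

/-- DCUT: cuts of the double cover. -/
def Stmt_DCUT : Prop :=
  ∀ C ρ : ℝ, 1 ≤ C → 0 < ρ → ∃ ρ2 θ : ℝ, 0 < ρ2 ∧ 0 < θ ∧
    ∀ {V : Type u} [Fintype V] (G : SimpleGraph V) (d : ℕ), 1 ≤ d →
      (Fintype.card V : ℝ) ≤ C * d →
      (∀ v, (nb G v).card ≤ d ∧ (1 - θ) * d ≤ ((nb G v).card : ℝ)) →
      (∀ S : Finset V, ρ * S.card * (univ \ S).card ≤ ∑ v ∈ S, ((nb G v \ S).card : ℝ)) →
      (∀ S : Finset V, ρ * (d : ℝ) ^ 2 ≤
        ∑ v ∈ S, ((nb G v ∩ S).card : ℝ) + ∑ v ∈ univ \ S, ((nb G v \ S).card : ℝ)) →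
      ∀ S T : Finset V, ρ2 * ((S.card : ℝ) + T.card) *
        (2 * (Fintype.card V : ℝ) - S.card - T.card) ≤
          ∑ v ∈ S, ((nb G v \ T).card : ℝ) + ∑ v ∈ T, ((nb G v \ S).card : ℝ)

/-- CPB (from PCUT): the parts of a piece of type B inherit the cut condition if they halve the
classes `cl` of the sides and the neighbourhoods. -/
def Stmt_CPB : Prop :=
  ∀ C ρ : ℝ, 1 ≤ C → 0 < ρ → ∃ (Mc d0 : ℕ) (ρ' ι : ℝ), 0 < ρ' ∧ 0 < ι ∧
    ∀ {V : Type u} [Fintype V] (G : SimpleGraph V) (d : ℕ) (sd : V → Bool), d0 ≤ d →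
      (Fintype.card V : ℝ) ≤ C * d → (∀ v w, G.Adj v w → sd v ≠ sd w) →
      (∀ v, (nb G v).card ≤ d ∧ (1 - ι) * d ≤ ((nb G v).card : ℝ)) →
      (∀ S : Finset V, ρ * S.card * (univ \ S).card ≤ ∑ v ∈ S, ((nb G v \ S).card : ℝ)) →
      ∃ cl : V → Fin Mc, ∀ pt : V → Bool,
        (∀ m β i, |(((qtr sd pt β i).filter (fun v => cl v = m)).card : ℝ) -
          ((sid sd β).filter (fun v => cl v = m)).card / 2| ≤ ι * d) →
        (∀ u i, |((nb G u ∩ prt pt i).card : ℝ) - (nb G u).card / 2| ≤ ι * d) →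
        ∀ i, ∀ S ⊆ prt pt i, ρ' * S.card * (prt pt i \ S).card ≤
          ∑ v ∈ S, (((nb G v \ S) ∩ qtr sd pt (!(sd v)) i).card : ℝ)

/-- CPN (from PCUT, DCUT): the same for type N. -/
def Stmt_CPN : Prop :=
  ∀ C ρ : ℝ, 1 ≤ C → 0 < ρ → ∃ (Mc d0 : ℕ) (ρ' ι : ℝ), 0 < ρ' ∧ 0 < ι ∧
    ∀ {V : Type u} [Fintype V] (G : SimpleGraph V) (d : ℕ), d0 ≤ d →
      (Fintype.card V : ℝ) ≤ C * d →
      (∀ v, (nb G v).card ≤ d ∧ (1 - ι) * d ≤ ((nb G v).card : ℝ)) →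
      (∀ S : Finset V, ρ * S.card * (univ \ S).card ≤ ∑ v ∈ S, ((nb G v \ S).card : ℝ)) →
      (∀ S : Finset V, ρ * (d : ℝ) ^ 2 ≤
        ∑ v ∈ S, ((nb G v ∩ S).card : ℝ) + ∑ v ∈ univ \ S, ((nb G v \ S).card : ℝ)) →
      ∃ cl : V → Fin Mc, ∀ sd pt : V → Bool,
        (∀ m β i, |(((qtr sd pt β i).filter (fun v => cl v = m)).card : ℝ) -
          ((univ : Finset V).filter (fun v => cl v = m)).card / 4| ≤ ι * d) →
        (∀ u β i, |((nb G u ∩ qtr sd pt β i).card : ℝ) - (nb G u).card / 4| ≤ ι * d) →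
        ∀ i, ∀ S ⊆ prt pt i, ρ' * S.card * (prt pt i \ S).card ≤
          ∑ v ∈ S, (((nb G v \ S) ∩ qtr sd pt (!(sd v)) i).card : ℝ)

/-- PARTS (from LAB3, CPB, CPN): `Frame.Stmt_PARTS`. -/
def Stmt_PARTV : Prop := Stmt_LAB3.{u} → Stmt_CPB.{u} → Stmt_CPN.{u} → Stmt_PARTS.{u}

end Pool.Agent.Work.MP_db9399_da
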