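import Pool.Agent.Work.MP_db9399_da.Frame2
import Pool.Agent.Work.MP_db9399_da_helper82.Step
import Pool.Agent.Work.MP_db9399_da_helper82.Cand

/-!
# MP_db9399, DENSE-ALL, phase 2: PREX (owner helper26)

From the colouring of PRE to `PreP2`: shift of the colours (SHF), then boundedly many exchanges at
the vertices of `W0 = VH ∪ S0` in `V0`. During the process the edges of `X.H` have the DUMMY colour
`d + 2`. See BLUEPRINT4.md.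
-/

set_option autoImplicit false

namespace Pool.Agent.Work.MP_db9399_da

open Finset Classical
open Pool.Agent.Work.MP_db9399_all (nb)
open Pool.Agent.Work.MP_db9399_lt (us)
open Pool.Agent.Work.MP_db9399_da.helper82 (EC StepR alc)

universe u

section defs
variable {V : Type u} {M : ℕ}

/-- `v`, `x` are in the same side of a piece of type B -/
def SC (P : Pcs V M) (v x : V) : Prop :=
  P.ty (P.pc v) = Ty.B ∧ P.pc v = P.pc x ∧ P.sd v = P.sd x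

variable [Fintype V]

/-- the vertices at which colours are exchanged -/
noncomputable def W0 (X : HD V) : Finset V := X.VH ∪ X.S0

/-- own colours of `V0 ∖ VH` -/
noncomputable def Sp2 (P : Pcs V M) (X : HD V) (c : V → ℕ) : Finset ℕ := (P.V0 \ X.VH).image c

/-- the piece `n` is of type B and of zero type: almost all colours of `P1` are balanced -/
def ZT (τ : ℝ) (G : SimpleGraph V) (d : ℕ) (P : Pcs V M) (A : Pal) (t : V → V → ℕ) (n : Fin M) :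
    Prop :=
  P.ty n = Ty.B ∧
    (((P1 d A.Q A.P2).filter (fun b => sg (Fn G P t n) (sdn P n) b ≠ 0)).card : ℝ) ≤ τ * d

/-- Result of SHF (shift of the colours inside the atoms of the palettes). -/
structure SHP (τ ζ : ℝ) (K5 : ℕ) (G : SimpleGraph V) (d : ℕ) (P : Pcs V M) (A : Pal) (X : HD V)
    (Ss : Finset ℕ) (t : V → V → ℕ) (c : V → ℕ) (Sp : Finset ℕ) : Prop where
  e0 : ∀ v w, X.H.Adj v w → (thin G P).Adj v w → t v w ∉ Sp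
  sS : Disjoint Sp Ss
  zero : ∀ n, ZT τ G d P A t n → ∀ b ∈ Ss, sg (Fn G P t n) (sdn P n) b = 0
  nmc : ∀ z ∈ P.V0, c z ∉ X.nm z
  lig : ∀ z ∈ P.V0, ((univ.filter (fun v => c z ∈ X.nm v)).card : ℝ) ≤ ζ / 16 * d
  bad : ((X.S0 ×ˢ (univ : Finset V)).filter
    (fun p => G.Adj p.1 p.2 ∧ t p.1 p.2 ∈ X.ne p.1 p.2)).card ≤ K5
  badV : ∀ z ∈ X.S0, ∀ w, G.Adj z w → t z w ∈ X.ne z w → w ∉ P.V0 ∧ t z w ∉ Sp
  mem : ∀ v ∈ X.VH, v ∉ P.V0 → ∀ w, (thin G P).Adj v w → t v w ∉ Ss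
  v0s : ∀ z ∈ W0 X, z ∈ P.V0 → ∀ w ∈ P.V0, G.Adj z w → t z w ∉ Ss
  hl : ∀ z ∈ X.S0, ∀ u, X.H.Adj z u →
    1000 * ((nb G z).filter (fun x => t z u ∈ X.ne z x)).card ≤ d

/-- SHF. All fields of `PreP` are invariant under permutations of the colours which fix the atoms
`C0`, `Q i`, `C i ∖ Q i`, `P2`, `C 2 ∖ P2` (`helper82.preP_perm`), so are `e0` and `ZT`; first moment
over the shifts of every atom. `Sp`, `Ss` are in `C0`; `zero`: at most `τ d` colours are not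
balanced; `lig`: `∑_b #{v : b ∈ nm v} ≤ 2 |V| + k²` (`nm2`, `nmk`), so at most
`16 (2 C d + k²) / (ζ d)` colours are heavy; `hl` the same with `2000` colours for every edge. -/
def Stmt_SHF : Prop :=
  ∀ (C g ρ π κ : ℝ) (M k k2 : ℕ), 1 ≤ C → 0 < π → π ≤ 1 / 100 → 0 < κ → κ ≤ 1 / 100 →
    ∃ (τ0 : ℝ) (K5 : ℕ), 0 < τ0 ∧ ∀ τ : ℝ, 0 < τ → τ ≤ τ0 →
    ∃ ζ0 : ℝ, 0 < ζ0 ∧ ∀ ζ : ℝ, 0 < ζ → ζ ≤ ζ0 → ∃ θ0 : ℝ, 0 < θ0 ∧ ∀ θ : ℝ, 0 < θ → θ ≤ θ0 →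
    ∃ d0 : ℕ, ∀ {V : Type u} [Fintype V] (G : SimpleGraph V) (d : ℕ) (P : Pcs V M) (A : Pal)
      (X : HD V) (Ss : Finset ℕ) (ε : ℝ) (t : V → V → ℕ) (c : V → ℕ) (Sp : Finset ℕ), d0 ≤ d →
      DecP C g ρ ζ θ G d P → PalP A d π κ → HP k d G X → SupP P X → Ss ⊆ A.C0 d →
      Ss.card ≤ k2 → PreP ε ζ G d P A t c Sp →
      (∀ v w, X.H.Adj v w → (thin G P).Adj v w → t v w ∉ Sp) →
      ∃ (t' : V → V → ℕ) (c' : V → ℕ) (Sp' : Finset ℕ),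
        PreP ε ζ G d P A t' c' Sp' ∧ SHP τ ζ K5 G d P A X Ss t' c' Sp'

/-- The numbers. `L` bounds all bounded numbers. -/
structure Nu (C g ρ K π κ ε ε2 σ τ ζ θ : ℝ) (M k k2 K5 L d : ℕ) : Prop where
  C1 : 1 ≤ C
  g0 : 0 < g
  g1 : g ≤ 1 / 10
  ρ0 : 0 < ρ
  ρ1 : ρ ≤ 1
  K0 : 0 < K
  σ0 : 0 < σ
  σ1 : σ ≤ 1 / 100
  π0 : 0 < π
  πσ : π ≤ σ / 1000
  κ0 : 0 < κ
  κσ : κ ≤ σ / 1000
  κk : 1000 * (k + 1) * κ ≤ 1
  τ0 : 0 < τ
  ε0 : 0 < ε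
  ετ : 100 * ε ≤ τ
  ε1 : ε2 ≤ 1
  ML : M ≤ L
  kL : k ≤ L
  k2L : k2 ≤ L
  K5L : K5 ≤ L
  L1 : 1 ≤ L
  τL : 10 ^ 6 * (L : ℝ) ^ 2 * τ ≤ σ
  ζ0 : 0 < ζ
  ζL : 10 ^ 6 * (L : ℝ) ^ 2 * ζ ≤ σ
  θ0 : 0 < θ
  θL : 10 ^ 6 * (L : ℝ) ^ 2 * θ ≤ ζ ^ 2 * σ
  dL : 10 ^ 9 * (L : ℝ) ^ 4 ≤ ε * θ * ζ ^ 2 * σ * κ * d

/-- The context of all blocks: `t`, `c`, `Sp` are the shifted result of PRE. -/
structure Cx (C g ρ K π κ ε ε2 σ τ ζ θ : ℝ) (k k2 K5 L : ℕ) (G : SimpleGraph V) (d : ℕ)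
    (P : Pcs V M) (A : Pal) (X : HD V) (Ss : Finset ℕ) (t : V → V → ℕ) (c : V → ℕ)
    (Sp : Finset ℕ) : Prop where
  nu : Nu C g ρ K π κ ε ε2 σ τ ζ θ M k k2 K5 L d
  dec : DecP C g ρ ζ θ G d P
  pd : PartD K ζ ε2 G d P
  pal : PalP A d π κ
  hp : HP k d G X
  sup : SupP P X
  vh : VHp σ G d P X
  sC : Ss ⊆ A.C0 d
  sk : Ss.card ≤ k2
  sV : ∀ v ∈ X.VH, X.c0 v ∈ Ss ∧ X.h0 v ∈ Ss
  pre : PreP ε ζ G d P A t c Sp
  sh : SHP τ ζ K5 G d P A X Ss t c Sp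

/-- Invariant of the partners: at the piece `n` the vertices of the side `β` which are missed in
rounds of blocked colours have partners among the misses of fresh colours `U` of the other side.
`F`: colours at the vertices. -/
def EXI (ζ : ℝ) (d : ℕ) (P : Pcs V M) (X : HD V) (Ss : Finset ℕ) (F : V → Finset ℕ)
    (U : Finset ℕ) (n : Fin M) (β : Bool) : Prop :=
  ∑ b ∈ Bkn X P ζ d Ss n β, need (fun v : Ts P n => F v.1) (sdn P n) β b ≤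
    ∑ b ∈ U, need (fun v : Ts P n => F v.1) (sdn P n) (!β) b

/-- the reserved colours at the start: old colours of the edges of `X.H`, colours of the bad edges
at super vertices, own colours of `VH ∩ V0` -/
noncomputable def Bd0 (G : SimpleGraph V) (P : Pcs V M) (X : HD V) (t : V → V → ℕ) (c : V → ℕ) :
    Finset ℕ :=
  ((univ : Finset (V × V)).filter (fun p => X.H.Adj p.1 p.2 ∧ (thin G P).Adj p.1 p.2)).image
      (fun p => t p.1 p.2) ∪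
    ((X.S0 ×ˢ (univ : Finset V)).filter
      (fun p => G.Adj p.1 p.2 ∧ t p.1 p.2 ∈ X.ne p.1 p.2)).image (fun p => t p.1 p.2) ∪
    (X.VH ∩ P.V0).image c

/-- State of the process. `t0`, `c`: the colouring of the context; `Bd`: reserved colours (touched,
not counted), `U`: fresh colours (counted as partners), `s`: number of exchanges. The edges of `X.H`
have the dummy colour `d + 2`. -/
structure PSt (τ ζ : ℝ) (G : SimpleGraph V) (d : ℕ) (P : Pcs V M) (A : Pal) (X : HD V)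
    (Ss : Finset ℕ) (t0 : V → V → ℕ) (c : V → ℕ) (Bd : Finset ℕ) (s : ℕ) (t : V → V → ℕ)
    (U : Finset ℕ) : Prop where
  ec : EC (thin2 G X P) t
  dm : ∀ v w, X.H.Adj v w → t v w = d + 2
  lt : ∀ v w, (thin2 G X P).Adj v w → ¬ X.H.Adj v w → t v w < d + 2
  al : ∀ v, v ∉ P.V0 → ∀ b ∈ Fc2 G X P t v, b < d + 2 → alc P A v b
  UP : U ⊆ P1 d A.Q A.P2
  Ud : Disjoint U (Ss ∪ Sp2 P X c ∪ Bd)
  Uc : U.card ≤ s
  B0 : Bd0 G P X t0 c ⊆ Bd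
  Bp : Disjoint Bd (Sp2 P X c)
  B2 : d + 2 ∉ Bd
  ch : ∀ v w, (thin2 G X P).Adj v w → ¬ X.H.Adj v w → t v w ≠ t0 v w →
    (v ∈ W0 X ∧ v ∈ P.V0 ∧ w ∉ P.V0 ∧ w ∉ X.VH) ∨ (w ∈ W0 X ∧ w ∈ P.V0 ∧ v ∉ P.V0 ∧ v ∉ X.VH)
  cn : ((univ : Finset (V × V)).filter (fun p => (thin2 G X P).Adj p.1 p.2 ∧
    ¬ X.H.Adj p.1 p.2 ∧ t p.1 p.2 ≠ t0 p.1 p.2)).card ≤ 4 * s
  tc : ∀ b, b < d + 2 → b ∉ Ss → b ∉ Bd → b ∉ U → ∀ v, v ∉ P.V0 →
    (b ∈ Fc2 G X P t v ↔ b ∈ Fc G P t0 v)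
  E : ∀ n, ZT τ G d P A t0 n → ∀ β, EXI ζ d P X Ss (Fc2 G X P t) U n β
  br : ∀ z ∈ X.S0, ∀ w, G.Adj z w → ¬ X.H.Adj z w → t z w ∈ X.ne z w → t z w = t0 z w
  own : ∀ z ∈ P.V0, z ∉ X.VH → c z ∉ Fc2 G X P t z
  own2 : ∀ z ∈ X.VH, z ∈ P.V0 → X.c0 z ∈ Fc2 G X P t z → c z ∉ Fc2 G X P t z
  hol : ∀ z ∈ W0 X, z ∈ P.V0 → ∀ u, X.H.Adj z u → X.h0 z ∈ Fc2 G X P t z →
    t0 z u ∉ Fc2 G X P t z

/-- the colouring at the start -/
noncomputable def ini (d : ℕ) (X : HD V) (t : V → V → ℕ) (v w : V) : ℕ :=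
  if X.H.Adj v w then d + 2 else t v w

/-- the colouring at the end -/
noncomputable def fnl (X : HD V) (t : V → V → ℕ) (v w : V) : ℕ :=
  if X.H.Adj v w then X.h0 v else t v w

end defs

/-! ## Candidates -/

/-- CNH (from `helper82.cand`, `helper82.bad_cell`). `z ∈ W0 ∩ V0`, `v` a member: many neighbours
`x` of `z` outside `V0` and outside the side of `v` (type B) such that `f` is allowed at `x` and the
colour of `z x` at `v`. If `v` is in a piece of type B then the colour of `z x` must only avoid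
`Q (pt v)`; outside the side of `v` there are `≥ σ d` neighbours (`VH`) or `≥ d / 4 - 4` (gadgets,
type K by `SupP`). Otherwise `cand`. -/
def Stmt_CNH : Prop :=
  ∀ (C g ρ K π κ ε ε2 σ τ ζ θ : ℝ) (M k k2 K5 L : ℕ) {V : Type u} [Fintype V]
    (G : SimpleGraph V) (d : ℕ) (P : Pcs V M) (A : Pal) (X : HD V) (Ss : Finset ℕ)
    (t : V → V → ℕ) (c : V → ℕ) (Sp : Finset ℕ),
    Cx C g ρ K π κ ε ε2 σ τ ζ θ k k2 K5 L G d P A X Ss t c Sp →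
    ∀ (z v : V) (f : ℕ) (tz : V → ℕ), z ∈ W0 X → z ∈ P.V0 → v ∉ P.V0 →
      Set.InjOn tz (nb G z : Set V) →
      σ / 4 * d ≤ (((nb G z).filter (fun x => x ∉ P.V0 ∧ alc P A x f ∧ alc P A v (tz x) ∧
        ¬ SC P v x)).card : ℝ) ∧
      (z ∈ X.S0 → (d : ℝ) / 20 ≤ (((nb G z).filter (fun x => x ∉ P.V0 ∧ alc P A x f ∧
        alc P A v (tz x) ∧ ¬ SC P v x)).card : ℝ))

/-- CNS. `z` a super vertex, `v` a member where `f` is allowed: many neighbours `x` of `z` in the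
gadgets of `z` outside `V0` such that `f` is allowed at `x` and the colour of `z x` at `v`. PROOF.
The vertices of `Gd z i` outside `V0` are in one piece `n` of type K which is inside `Gd z i`
(degrees in the bulk, `gd2`), at least `d / 8 - 2 - θ d` of them are neighbours of `z`, split in
thirds by `PartD.big`. If `v` is in the third `j` of a piece of type K take `x` in the third `j`:
`f ∉ C j` and `tz x ∉ C j`. Otherwise `x` in a third `j` with `f ∉ C j`, `tz x ∉ Q (pt v)`. -/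
def Stmt_CNS : Prop :=
  ∀ (C g ρ K π κ ε ε2 σ τ ζ θ : ℝ) (M k k2 K5 L : ℕ) {V : Type u} [Fintype V]
    (G : SimpleGraph V) (d : ℕ) (P : Pcs V M) (A : Pal) (X : HD V) (Ss : Finset ℕ)
    (t : V → V → ℕ) (c : V → ℕ) (Sp : Finset ℕ),
    Cx C g ρ K π κ ε ε2 σ τ ζ θ k k2 K5 L G d P A X Ss t c Sp →
    ∀ (z v : V) (f : ℕ) (tz : V → ℕ), z ∈ X.S0 → v ∉ P.V0 → alc P A v f →
      Set.InjOn tz (nb G z : Set V) → (∀ x ∈ nb G z, x ∉ P.V0 → alc P A x (tz x)) →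
      (d : ℝ) / 100 ≤ (((nb G z).filter (fun x => x ∉ P.V0 ∧
        (x ∈ X.Gd z false ∨ x ∈ X.Gd z true) ∧ alc P A x f ∧ alc P A v (tz x))).card : ℝ)

/-- FRE: choice of a fresh colour among many candidates. Excluded are: colours outside `P1`
(`|P2 ∪ Q| ≤ (4 κ + 2 π) d`), `Ss ∪ Sp ∪ Bd ∪ U ∪ ne z v` (`θ d` + bounded), unbalanced colours at
the pieces of zero type (`M τ d`), colours at `v` (`ζ d + 1`), `x ∈ VH ∪ {v}`, `x` with colour `f`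
(`load`, at most `M ε ζ d + 100 L`: only edges at `W0` are changed), the partner of `z`. -/
def Stmt_FRE : Prop :=
  ∀ (C g ρ K π κ ε ε2 σ τ ζ θ : ℝ) (M k k2 K5 L : ℕ) {V : Type u} [Fintype V]
    (G : SimpleGraph V) (d : ℕ) (P : Pcs V M) (A : Pal) (X : HD V) (Ss : Finset ℕ)
    (t0 : V → V → ℕ) (c : V → ℕ) (Sp : Finset ℕ),
    Cx C g ρ K π κ ε ε2 σ τ ζ θ k k2 K5 L G d P A X Ss t0 c Sp →
    ∀ (Bd : Finset ℕ) (s : ℕ) (t : V → V → ℕ) (U : Finset ℕ),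
      PSt τ ζ G d P A X Ss t0 c Bd s t U → Bd.card ≤ 100 * L → s ≤ 100 * L →
      ∀ (z v : V) (f : ℕ) (Cs : Finset V), z ∈ P.V0 → v ∉ P.V0 → Cs ⊆ nb G z →
        (∀ x ∈ Cs, x ∉ P.V0) → σ / 10 * d ≤ (Cs.card : ℝ) →
        ∃ x ∈ Cs, x ≠ v ∧ x ∉ X.VH ∧ ¬ X.H.Adj z x ∧ t z x ∈ P1 d A.Q A.P2 ∧
          t z x ∉ Ss ∪ Sp2 P X c ∪ Bd ∪ U ∧
          (∀ n, ZT τ G d P A t0 n → sg (Fn2 G X P t n) (sdn P n) (t z x) = 0) ∧
          t z x ∉ Fc2 G X P t v ∧ f ∉ Fc2 G X P t x ∧ (z ∈ X.S0 → t z x ∉ X.ne z v)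

/-! ## One exchange -/

/-- DEX: effect of an exchange on `EXI`. `b` leaves `v`, `b3` moves from `x` to `v`, `f` comes to
`x`. PROOF. Let `s_b` = signed number on the side `!β`... For `β`: a change of one vertex costs at
most 1; the change of `b3` at `v` pays for `b`, the change of `b3` at `x` pays for `f`, they do not
cancel if `v`, `x` are not in the same side; if `f = b` and they are in the same side, nothing
changes. -/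
def Stmt_DEX : Prop :=
  ∀ {V : Type u} [Fintype V] {M : ℕ} (ζ : ℝ) (d : ℕ) (P : Pcs V M) (X : HD V) (Ss U : Finset ℕ)
    (F F' : V → Finset ℕ) (v x : V) (b b3 f : ℕ) (n : Fin M) (β : Bool),
    P.ty n = Ty.B → v ∉ P.V0 → x ∉ P.V0 → v ≠ x → b ∈ F v → b3 ∉ F v → b3 ∈ F x → f ∉ F x →
    F' v = insert b3 ((F v).erase b) → F' x = insert f ((F x).erase b3) →
    (∀ y, y ∉ P.V0 → y ≠ v → y ≠ x → F' y = F y) → b ∉ U → f ∉ U → b3 ∉ U → b3 ∉ Ss →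
    sg (fun y : Ts P n => F y.1) (sdn P n) b3 = 0 → (f = b ∨ ¬ SC P v x) →
    EXI ζ d P X Ss F U n β → EXI ζ d P X Ss F' (insert b3 U) n β

/-- STPA (from `helper82.step`, DEX): an exchange with a fresh colour. The three uses are: bad edges
(`f = b`), own colours (`b = c0 z`, `f = c z`), edges of `X.H` (`b = h0 z`, `f` = old colour). -/
def Stmt_STPA : Prop :=
  ∀ (C g ρ K π κ ε ε2 σ τ ζ θ : ℝ) (M k k2 K5 L : ℕ) {V : Type u} [Fintype V]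
    (G : SimpleGraph V) (d : ℕ) (P : Pcs V M) (A : Pal) (X : HD V) (Ss : Finset ℕ)
    (t0 : V → V → ℕ) (c : V → ℕ) (Sp : Finset ℕ),
    Cx C g ρ K π κ ε ε2 σ τ ζ θ k k2 K5 L G d P A X Ss t0 c Sp →
    ∀ (Bd : Finset ℕ) (s : ℕ) (t : V → V → ℕ) (U : Finset ℕ),
      PSt τ ζ G d P A X Ss t0 c Bd s t U →
      ∀ (z v x : V) (b b3 f : ℕ), z ∈ W0 X → z ∈ P.V0 → G.Adj z v → G.Adj z x → v ≠ x →
        v ∉ P.V0 → v ∉ X.VH → x ∉ P.V0 → x ∉ X.VH → t z v = b → t z x = b3 →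
        ((f = b ∧ b ∈ Ss ∪ Bd) ∨ (z ∈ X.VH ∧ b = X.c0 z ∧ f = c z) ∨
          ∃ u, X.H.Adj z u ∧ b = X.h0 z ∧ f = t0 z u) →
        b3 ∈ P1 d A.Q A.P2 → b3 ∉ Ss ∪ Sp2 P X c ∪ Bd ∪ U →
        (∀ n, ZT τ G d P A t0 n → sg (Fn2 G X P t n) (sdn P n) b3 = 0) →
        b3 ∉ Fc2 G X P t v → f ∉ Fc2 G X P t x → alc P A v b3 → alc P A x f →
        (f = b ∨ ¬ SC P v x) → (z ∈ X.S0 → b3 ∉ X.ne z v ∧ f ∉ X.ne z x) →
        ∃ t', StepR (thin2 G X P) t t' z v x b b3 f ∧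
          PSt τ ζ G d P A X Ss t0 c Bd (s + 1) t' (insert b3 U)

/-- STPB (from `helper82.step`): an exchange with `f = b`, `b` and `b3` are not counted. -/
def Stmt_STPB : Prop :=
  ∀ (C g ρ K π κ ε ε2 σ τ ζ θ : ℝ) (M k k2 K5 L : ℕ) {V : Type u} [Fintype V]
    (G : SimpleGraph V) (d : ℕ) (P : Pcs V M) (A : Pal) (X : HD V) (Ss : Finset ℕ)
    (t0 : V → V → ℕ) (c : V → ℕ) (Sp : Finset ℕ),
    Cx C g ρ K π κ ε ε2 σ τ ζ θ k k2 K5 L G d P A X Ss t0 c Sp →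
    ∀ (Bd : Finset ℕ) (s : ℕ) (t : V → V → ℕ) (U : Finset ℕ),
      PSt τ ζ G d P A X Ss t0 c Bd s t U →
      ∀ (z v x : V) (b b3 : ℕ), z ∈ W0 X → z ∈ P.V0 → G.Adj z v → G.Adj z x → v ≠ x →
        v ∉ P.V0 → v ∉ X.VH → x ∉ P.V0 → x ∉ X.VH → t z v = b → t z x = b3 →
        b ∉ Ss ∪ Sp2 P X c ∪ U → b3 ∉ Ss ∪ Sp2 P X c ∪ U →
        b3 ∉ Fc2 G X P t v → b ∉ Fc2 G X P t x → alc P A v b3 → alc P A x b →
        (z ∈ X.S0 → b3 ∉ X.ne z v ∧ b ∉ X.ne z x) →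
        ∃ t', StepR (thin2 G X P) t t' z v x b b3 b ∧
          PSt τ ζ G d P A X Ss t0 c (insert b (insert b3 Bd)) (s + 1) t' U

/-! ## The phases -/

section goals
variable {V : Type u} {M : ℕ}

/-- no bad edges at super vertices -/
def gS (G : SimpleGraph V) (X : HD V) (t : V → V → ℕ) : Prop :=
  ∀ z ∈ X.S0, ∀ w, G.Adj z w → ¬ X.H.Adj z w → t z w ∉ X.ne z w

variable [Fintype V]

/-- the edges of `X.H` can get their colours -/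
def gH (G : SimpleGraph V) (P : Pcs V M) (X : HD V) (t : V → V → ℕ) : Prop :=
  ∀ z ∈ W0 X, z ∈ P.V0 → ∀ u, X.H.Adj z u → X.h0 z ∉ Fc2 G X P t z

/-- the vertices of `VH ∩ V0` can get their colours -/
def gO (G : SimpleGraph V) (P : Pcs V M) (X : HD V) (t : V → V → ℕ) : Prop :=
  ∀ z ∈ X.VH, z ∈ P.V0 → X.c0 z ∉ Fc2 G X P t z

/-- parity in the pieces of type K with two blocked colours and without vertices of `VH` -/
def gP (ζ : ℝ) (G : SimpleGraph V) (d : ℕ) (P : Pcs V M) (X : HD V) (Ss : Finset ℕ)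
    (t : V → V → ℕ) (n : Fin M) : Prop :=
  P.ty n = Ty.K → (∀ v w, v ≠ w → (bk2 G X P n).Adj v w) → (∀ v ∈ pV P n, v ∉ X.VH) →
    2 ≤ (Ss.filter (fun b => (((pV P n).filter (fun v => b ∉ X.nm v)).card : ℝ) <
      ζ / 4 * d)).card →
    ∃ b, b < d + 2 ∧ b ∉ Ss ∧ Odd (Fintype.card (Ts P n) - (us (Fn2 G X P t n) b).card)

end goals

/-- INI: the start. -/
def Stmt_INI : Prop :=
  ∀ (C g ρ K π κ ε ε2 σ τ ζ θ : ℝ) (M k k2 K5 L : ℕ) {V : Type u} [Fintype V]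
    (G : SimpleGraph V) (d : ℕ) (P : Pcs V M) (A : Pal) (X : HD V) (Ss : Finset ℕ)
    (t0 : V → V → ℕ) (c : V → ℕ) (Sp : Finset ℕ),
    Cx C g ρ K π κ ε ε2 σ τ ζ θ k k2 K5 L G d P A X Ss t0 c Sp →
    PSt τ ζ G d P A X Ss t0 c (Bd0 G P X t0 c) 0 (ini d X t0) ∅ ∧
      (Bd0 G P X t0 c).card ≤ 4 * L

/-- FIXS (from CNS, FRE, STPA): the bad edges `z w` at super vertices, `v = w`, `f = b`, induction on
their number. -/
def Stmt_FIXS : Prop :=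
  ∀ (C g ρ K π κ ε ε2 σ τ ζ θ : ℝ) (M k k2 K5 L : ℕ) {V : Type u} [Fintype V]
    (G : SimpleGraph V) (d : ℕ) (P : Pcs V M) (A : Pal) (X : HD V) (Ss : Finset ℕ)
    (t0 : V → V → ℕ) (c : V → ℕ) (Sp : Finset ℕ),
    Cx C g ρ K π κ ε ε2 σ τ ζ θ k k2 K5 L G d P A X Ss t0 c Sp →
    ∀ (Bd : Finset ℕ) (s : ℕ) (t : V → V → ℕ) (U : Finset ℕ),
      PSt τ ζ G d P A X Ss t0 c Bd s t U → Bd.card ≤ 10 * L → s ≤ 10 * L →
      ∃ (t' : V → V → ℕ) (U' : Finset ℕ) (s' : ℕ), s' ≤ s + K5 ∧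
        PSt τ ζ G d P A X Ss t0 c Bd s' t' U' ∧ gS G X t'

/-- FIXH (from CNH, FRE, STPA): for every `z ∈ W0 ∩ V0` with an edge `z u` of `X.H` whose colour
`h0 z` is at `z` (at an edge `z v`): `b = h0 z`, `f = t0 z u`. -/
def Stmt_FIXH : Prop :=
  ∀ (C g ρ K π κ ε ε2 σ τ ζ θ : ℝ) (M k k2 K5 L : ℕ) {V : Type u} [Fintype V]
    (G : SimpleGraph V) (d : ℕ) (P : Pcs V M) (A : Pal) (X : HD V) (Ss : Finset ℕ)
    (t0 : V → V → ℕ) (c : V → ℕ) (Sp : Finset ℕ),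
    Cx C g ρ K π κ ε ε2 σ τ ζ θ k k2 K5 L G d P A X Ss t0 c Sp →
    ∀ (Bd : Finset ℕ) (s : ℕ) (t : V → V → ℕ) (U : Finset ℕ),
      PSt τ ζ G d P A X Ss t0 c Bd s t U → Bd.card ≤ 10 * L → s ≤ 20 * L → gS G X t →
      ∃ (t' : V → V → ℕ) (U' : Finset ℕ) (s' : ℕ), s' ≤ s + 2 * k ∧
        PSt τ ζ G d P A X Ss t0 c Bd s' t' U' ∧ gS G X t' ∧ gH G P X t'

/-- FIXO (from CNH, FRE, STPA): for every `z ∈ VH ∩ V0` whose own colour `c0 z` is at an edge `z v`: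
`b = c0 z`, `f = c z`. -/
def Stmt_FIXO : Prop :=
  ∀ (C g ρ K π κ ε ε2 σ τ ζ θ : ℝ) (M k k2 K5 L : ℕ) {V : Type u} [Fintype V]
    (G : SimpleGraph V) (d : ℕ) (P : Pcs V M) (A : Pal) (X : HD V) (Ss : Finset ℕ)
    (t0 : V → V → ℕ) (c : V → ℕ) (Sp : Finset ℕ),
    Cx C g ρ K π κ ε ε2 σ τ ζ θ k k2 K5 L G d P A X Ss t0 c Sp →
    ∀ (Bd : Finset ℕ) (s : ℕ) (t : V → V → ℕ) (U : Finset ℕ),
      PSt τ ζ G d P A X Ss t0 c Bd s t U → Bd.card ≤ 10 * L → s ≤ 30 * L → gS G X t →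
      gH G P X t →
      ∃ (t' : V → V → ℕ) (U' : Finset ℕ) (s' : ℕ), s' ≤ s + k ∧
        PSt τ ζ G d P A X Ss t0 c Bd s' t' U' ∧ gS G X t' ∧ gH G P X t' ∧ gO G P X t'

/-- PAR1 (from CNS, STPB): parity in one piece; colours in `Ss ∪ Sp2 ∪ Bd ∪ U` are not touched, the
witness is in `Sp2 ∪ Bd' ∪ U`. PROOF. If there is no witness: at least `|pV n| - ζ d` vertices of `n`
have two names, hence two neighbours in `W0` (`nmF`, `o = ∅`), `VH`-members of other pieces have at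
most `ζ d` of them, so some `z ∈ W0 ∩ V0` has `≥ d / (5 (k + 1))` neighbours in `n`; also
`|pV n| ≤ d`. Exchange with `f = b`, `v ∈ n`, `x ∉ n`: then `b3` is a witness.
`z ∈ S0`: `v` any neighbour in `n` with `t z v ∉ Ss ∪ Sp2 ∪ Bd ∪ U`, `x` from CNS (`f = b`), not in
`n` as the vertices of gadgets have no names. `z ∈ VH`: `x ∉ n` first (`hubK`: `≥ ζ / 4 d`
neighbours outside `n`), `b3 = t z x ∉ Ss ∪ Sp2 ∪ Bd ∪ U`; then `v ∈ n`: if `x` is in the third `l`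
of a piece of type K: `v` in the third `l`; otherwise `v` in a third `j` with `b3 ∉ C j`,
`t z v ∉ Q (pt x)` (`κk`); there are `≥ 32 / 100` of the neighbours in every third (`PartD.big`). -/
def Stmt_PAR1 : Prop :=
  ∀ (C g ρ K π κ ε ε2 σ τ ζ θ : ℝ) (M k k2 K5 L : ℕ) {V : Type u} [Fintype V]
    (G : SimpleGraph V) (d : ℕ) (P : Pcs V M) (A : Pal) (X : HD V) (Ss : Finset ℕ)
    (t0 : V → V → ℕ) (c : V → ℕ) (Sp : Finset ℕ),
    Cx C g ρ K π κ ε ε2 σ τ ζ θ k k2 K5 L G d P A X Ss t0 c Sp →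
    ∀ (Bd : Finset ℕ) (s : ℕ) (t : V → V → ℕ) (U : Finset ℕ) (n : Fin M),
      PSt τ ζ G d P A X Ss t0 c Bd s t U → Bd.card ≤ 50 * L → s ≤ 50 * L → gS G X t →
      gH G P X t → gO G P X t →
      ∃ (t' : V → V → ℕ) (Bd' : Finset ℕ) (s' : ℕ), s' ≤ s + 1 ∧ Bd ⊆ Bd' ∧
        Bd'.card ≤ Bd.card + 2 ∧
        PSt τ ζ G d P A X Ss t0 c Bd' s' t' U ∧ gS G X t' ∧ gH G P X t' ∧ gO G P X t' ∧
        (∀ b, b ∈ Ss ∪ Sp2 P X c ∪ Bd ∪ U → ∀ v, v ∉ P.V0 →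
          (b ∈ Fc2 G X P t' v ↔ b ∈ Fc2 G X P t v)) ∧
        (P.ty n = Ty.K → (∀ v w, v ≠ w → (bk2 G X P n).Adj v w) → (∀ v ∈ pV P n, v ∉ X.VH) →
          2 ≤ (Ss.filter (fun b => (((pV P n).filter (fun v => b ∉ X.nm v)).card : ℝ) <
            ζ / 4 * d)).card →
          ∃ b, b < d + 2 ∧ b ∉ Ss ∧ b ∈ Sp2 P X c ∪ Bd' ∪ U ∧
            Odd (Fintype.card (Ts P n) - (us (Fn2 G X P t' n) b).card))

/-- PAR (from PAR1, induction over the pieces). -/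
def Stmt_PAR : Prop :=
  ∀ (C g ρ K π κ ε ε2 σ τ ζ θ : ℝ) (M k k2 K5 L : ℕ) {V : Type u} [Fintype V]
    (G : SimpleGraph V) (d : ℕ) (P : Pcs V M) (A : Pal) (X : HD V) (Ss : Finset ℕ)
    (t0 : V → V → ℕ) (c : V → ℕ) (Sp : Finset ℕ),
    Cx C g ρ K π κ ε ε2 σ τ ζ θ k k2 K5 L G d P A X Ss t0 c Sp →
    ∀ (Bd : Finset ℕ) (s : ℕ) (t : V → V → ℕ) (U : Finset ℕ),
      PSt τ ζ G d P A X Ss t0 c Bd s t U → Bd.card ≤ 10 * L → s ≤ 40 * L → gS G X t →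
      gH G P X t → gO G P X t →
      ∃ (t' : V → V → ℕ) (Bd' : Finset ℕ) (s' : ℕ), s' ≤ s + M ∧ Bd'.card ≤ Bd.card + 2 * M ∧
        PSt τ ζ G d P A X Ss t0 c Bd' s' t' U ∧ gS G X t' ∧ gH G P X t' ∧ gO G P X t' ∧
        ∀ n, gP ζ G d P X Ss t' n

/-- EXF: the field `EX` of `PreP2`. PROOF. Zero type: `E`; the colours `h0` on at members `v` of `VH`
are not blocked on the other side (`ht`, `v` has `(1 - ζ) d` neighbours there), the own colours of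
`o` cost at most `|o ∩ side|`. Otherwise more than `τ d` colours are unbalanced and
`|∑ sg| ≤ ε d`, so both sums of needs are `≥ τ d / 3`, only boundedly many changes. -/
def Stmt_EXF : Prop :=
  ∀ (C g ρ K π κ ε ε2 σ τ ζ θ : ℝ) (M k k2 K5 L : ℕ) {V : Type u} [Fintype V]
    (G : SimpleGraph V) (d : ℕ) (P : Pcs V M) (A : Pal) (X : HD V) (Ss : Finset ℕ)
    (t0 : V → V → ℕ) (c : V → ℕ) (Sp : Finset ℕ),
    Cx C g ρ K π κ ε ε2 σ τ ζ θ k k2 K5 L G d P A X Ss t0 c Sp →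
    ∀ (Bd : Finset ℕ) (s : ℕ) (t : V → V → ℕ) (U : Finset ℕ),
      PSt τ ζ G d P A X Ss t0 c Bd s t U → Bd.card ≤ 100 * L → s ≤ 100 * L →
      ∀ n, P.ty n = Ty.B → ∀ β,
        ∑ b ∈ Bkn X P ζ d Ss n β, need (Fo2 G X P (fnl X t) n) (sdn P n) β b ≤
          (oT X P n ∩ sid (sdn P n) (!β)).card +
            ∑ b ∈ P1 d A.Q A.P2 \ Bkn X P ζ d Ss n (!β),
              need (Fo2 G X P (fnl X t) n) (sdn P n) (!β) b

/-- CMP: the numerical fields of `PreP2`. PROOF. `t` and `t0` differ only at edges which meet `W0`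
(`ch`, `|W0| ≤ 2 k`), so every colour is gained or lost by at most `8 k` members; the number of
changed edges is bounded (`cn`). -/
def Stmt_CMP : Prop :=
  ∀ (C g ρ K π κ ε ε2 σ τ ζ θ : ℝ) (M k k2 K5 L : ℕ) {V : Type u} [Fintype V]
    (G : SimpleGraph V) (d : ℕ) (P : Pcs V M) (A : Pal) (X : HD V) (Ss : Finset ℕ)
    (t0 : V → V → ℕ) (c : V → ℕ) (Sp : Finset ℕ),
    Cx C g ρ K π κ ε ε2 σ τ ζ θ k k2 K5 L G d P A X Ss t0 c Sp →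
    ∀ (Bd : Finset ℕ) (s : ℕ) (t : V → V → ℕ) (U : Finset ℕ),
      PSt τ ζ G d P A X Ss t0 c Bd s t U → Bd.card ≤ 100 * L → s ≤ 100 * L →
      (∀ n b, ((us (Fn2 G X P (fnl X t) n) b).card : ℝ) ≤ 2 * ε * ζ * d) ∧
      (∀ n, P.ty n = Ty.N ∨ P.ty n = Ty.B → ∀ i, ∀ b ∈ A.Q (!i) ∪ A.P2,
        |sgp (Fn2 G X P (fnl X t) n) (sdn P n) (ptn P n) i b| ≤ KK k) ∧
      (∀ n, P.ty n = Ty.B → ∀ b ∈ P1 d A.Q A.P2,
        |sg (Fo2 G X P (fnl X t) n) (sdn P n) b| ≤ KK k) ∧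
      (∀ n, P.ty n = Ty.B →
        |((∑ b ∈ P1 d A.Q A.P2, sg (Fo2 G X P (fnl X t) n) (sdn P n) b : ℤ) : ℝ)| ≤
          2 * ε * d) ∧
      (∀ n, P.ty n = Ty.N ∨ P.ty n = Ty.B → ∀ i,
        |((∑ b ∈ A.P2, sgp (Fn2 G X P (fnl X t) n) (sdn P n) (ptn P n) i b : ℤ) : ℝ)| ≤
          2 * ε * d) ∧
      (∀ n, P.ty n = Ty.N ∨ P.ty n = Ty.B → ∀ i,
        |((∑ b ∈ A.Q (!i), sgp (Fn2 G X P (fnl X t) n) (sdn P n) (ptn P n) i b : ℤ) : ℝ)| ≤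
          2 * ε * d) ∧
      (∀ n, P.ty n = Ty.B → ∀ β,
        ((∑ b ∈ P1 d A.Q A.P2, need (Fo2 G X P (fnl X t) n) (sdn P n) β b : ℕ) : ℝ) ≤
          (3 / 5 + 2 * ε) * d) ∧
      (∀ n, P.ty n = Ty.B → ∀ j, (A.Q j).card ≤
        5 * ((A.Q j).filter (fun b =>
          0 ≤ sgp (Fn2 G X P (fnl X t) n) (sdn P n) (ptn P n) (!j) b)).card) ∧
      (∀ z ∈ P.V0, z ∉ X.VH → ∀ n β, P.rg z = some (n, β) →
        need (Fo2 G X P (fnl X t) n) (sdn P n) β (c z) = 0)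

/-- PREX2: all together (from PREE, SHF and the other blocks), owner helper26. -/
def Stmt_PRX : Prop :=
  Stmt_SHF.{u} → Stmt_INI.{u} → Stmt_FIXS.{u} → Stmt_FIXH.{u} → Stmt_FIXO.{u} →
    Stmt_PAR.{u} → Stmt_EXF.{u} → Stmt_CMP.{u} → Stmt_PRE2.{u}

end Pool.Agent.Work.MP_db9399_da
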